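import Pool.Agent.helper31.IA.ExpSound

/-!
# IA-3: the logarithm of fixed point numbers
-/

namespace Pool.Agent.helper31.IA

open Complex

private theorem LogSound_shr (n k : ℕ) : (n : ℝ) / 2 ^ k ≤ (Nat.shiftRight n k : ℝ) + 1 := by
  have h0 : Nat.shiftRight n k = n / 2 ^ k := Nat.shiftRight_eq_div_pow n k
  have h1 : n < (n / 2 ^ k + 1) * 2 ^ k := by
    have h2 := Nat.div_add_mod n (2 ^ k)
    have h3 := Nat.mod_lt n (Nat.pos_of_ne_zero (pow_ne_zero k (two_ne_zero : (2 : ℕ) ≠ 0)))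
    calc n = 2 ^ k * (n / 2 ^ k) + n % 2 ^ k := h2.symm
      _ < 2 ^ k * (n / 2 ^ k) + 2 ^ k := by omega
      _ = (n / 2 ^ k + 1) * 2 ^ k := by ring
  rw [h0, div_le_iff₀ (by positivity)]
  exact_mod_cast h1.le

/-- `|x exp(-l) - 1 - u| ≤ |x| (error of exp) + 2` units -/
theorem logu_sound (x l : Z) :
    ‖(logu x l).1.val - (x.val * Complex.exp (-l.val) - 1)‖ ≤ ((logu x l).2 : ℝ) / 2 ^ 40 := by
  have he := Z.exp_sound l.neg
  rw [Z.val_neg] at he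
  have h1 : (logu x l).1.val = (x.mul l.neg.exp.1).val - 1 := by
    show ((x.mul l.neg.exp.1).sub Z.one).val = _
    rw [Z.val_sub, Z.val_one]
  have h2 : (((logu x l).2 : ℕ) : ℝ) =
      ((Nat.shiftRight (Nat.mul x.mg l.neg.exp.2) 40 : ℕ) : ℝ) + 1 + 2 := by
    show (((Nat.shiftRight (Nat.mul x.mg l.neg.exp.2) 40 + 3 : ℕ)) : ℝ) = _
    push_cast
    ring
  rw [h1, h2]
  have h3 := Z.val_mul x l.neg.exp.1
  have h4 := Z.norm_le_mg x
  have h5 : (x.mul l.neg.exp.1).val - 1 - (x.val * Complex.exp (-l.val) - 1) =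
      ((x.mul l.neg.exp.1).val - x.val * l.neg.exp.1.val) +
      x.val * (l.neg.exp.1.val - Complex.exp (-l.val)) := by ring
  rw [h5]
  refine (norm_add_le _ _).trans ?_
  rw [norm_mul]
  have h6 : ‖x.val‖ * ‖l.neg.exp.1.val - Complex.exp (-l.val)‖ ≤
      ((x.mg : ℝ) / 2 ^ 40) * ((l.neg.exp.2 : ℝ) / 2 ^ 40) :=
    mul_le_mul h4 he (norm_nonneg _) (by positivity)
  have h7 := LogSound_shr (Nat.mul x.mg l.neg.exp.2) 40
  have h8 : ((Nat.mul x.mg l.neg.exp.2 : ℕ) : ℝ) = (x.mg : ℝ) * l.neg.exp.2 := by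
    show ((x.mg * l.neg.exp.2 : ℕ) : ℝ) = _
    push_cast
    rfl
  rw [h8] at h7
  have h9 : ((x.mg : ℝ) / 2 ^ 40) * ((l.neg.exp.2 : ℝ) / 2 ^ 40) ≤
      (((Nat.shiftRight (Nat.mul x.mg l.neg.exp.2) 40 : ℕ) : ℝ) + 1) / 2 ^ 40 := by
    have : ((x.mg : ℝ) / 2 ^ 40) * ((l.neg.exp.2 : ℝ) / 2 ^ 40) =
        ((x.mg : ℝ) * l.neg.exp.2 / 2 ^ 40) / 2 ^ 40 := by ring
    rw [this]
    gcongr
  rw [add_div _ (2 : ℝ)]
  linarith

/-- rounding: `u2` 2 units, `divn 2` 2 units (+1), `u2*u` 2 units + 2|u| units, `/3`, 2 units. -/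
theorem log3_sound (u : Z) (hu : ‖u.val‖ ≤ 1 / 4) :
    ‖(log3 u).val - (u.val - u.val ^ 2 / 2 + u.val ^ 3 / 3)‖ ≤ 7 / 2 ^ 40 := by
  have h1 : (log3 u).val = u.val - ((u.mul u).divn 2).val + (((u.mul u).mul u).divn 3).val := by
    show ((u.sub ((u.mul u).divn 2)).add (((u.mul u).mul u).divn 3)).val = _
    rw [Z.val_add, Z.val_sub]
  have d1 := Z.val_mul u u
  have d2 := Z.val_divn (u.mul u) (n := 2) (by norm_num)
  have d3 := Z.val_mul (u.mul u) u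
  have d4 := Z.val_divn ((u.mul u).mul u) (n := 3) (by norm_num)
  rw [h1]
  set a := (u.mul u).val
  set b := ((u.mul u).divn 2).val
  set c := ((u.mul u).mul u).val
  set d := (((u.mul u).mul u).divn 3).val
  have e1 : u.val - b + d - (u.val - u.val ^ 2 / 2 + u.val ^ 3 / 3) =
      -(b - a / (2 : ℕ)) + -((a - u.val * u.val) / 2) + (d - c / (3 : ℕ)) +
        ((c - a * u.val) / 3 + (a - u.val * u.val) * u.val / 3) := by
    push_cast
    ring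
  rw [e1]
  have n1 := norm_add_le (-(b - a / (2 : ℕ)) + -((a - u.val * u.val) / 2) + (d - c / (3 : ℕ)))
    ((c - a * u.val) / 3 + (a - u.val * u.val) * u.val / 3)
  have n2 := norm_add_le (-(b - a / (2 : ℕ)) + -((a - u.val * u.val) / 2)) (d - c / (3 : ℕ))
  have n3 := norm_add_le (-(b - a / (2 : ℕ))) (-((a - u.val * u.val) / 2))
  have n4 := norm_add_le ((c - a * u.val) / 3) ((a - u.val * u.val) * u.val / 3)
  rw [norm_neg, norm_neg] at n3
  have n5 : ‖(a - u.val * u.val) / 2‖ = ‖a - u.val * u.val‖ / 2 := by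
    rw [norm_div]
    norm_num
  have n6 : ‖(c - a * u.val) / 3‖ = ‖c - a * u.val‖ / 3 := by
    rw [norm_div]
    norm_num
  have n7 : ‖(a - u.val * u.val) * u.val / 3‖ = ‖a - u.val * u.val‖ * ‖u.val‖ / 3 := by
    rw [norm_div, norm_mul]
    norm_num
  have n8 : ‖a - u.val * u.val‖ * ‖u.val‖ ≤ (2 / 2 ^ 40) * (1 / 4) :=
    mul_le_mul d1 hu (norm_nonneg _) (by positivity)
  have e7 : (7 : ℝ) / 2 ^ 40 = 2 / 2 ^ 40 + 2 / 2 ^ 40 / 2 + 2 / 2 ^ 40 + 2 / 2 ^ 40 / 3 +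
      (4 / 3) / 2 ^ 40 := by ring
  have e8 : (0 : ℝ) < 1 / 2 ^ 40 := by positivity
  rw [e7]
  have e9 : (2 : ℝ) / 2 ^ 40 * (1 / 4) / 3 = (1 / 6) * (1 / 2 ^ 40) := by ring
  have e10 : (4 / 3 : ℝ) / 2 ^ 40 = (4 / 3) * (1 / 2 ^ 40) := by ring
  linarith

/-- `log (1 + v)` for `‖v‖ ≤ 1/4` (Mathlib: `Complex.norm_log_sub_logTaylor_le` or similar). -/
theorem log_one_add_bound (v : ℂ) (hv : ‖v‖ ≤ 1 / 4) :
    ‖Complex.log (1 + v) - (v - v ^ 2 / 2 + v ^ 3 / 3)‖ ≤ ‖v‖ ^ 4 / 3 := by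
  have hv1 : ‖v‖ < 1 := by linarith
  have h1 := Complex.norm_log_sub_logTaylor_le 3 hv1
  have h2 : Complex.logTaylor (3 + 1) v = v - v ^ 2 / 2 + v ^ 3 / 3 := by
    rw [Complex.logTaylor_succ, Complex.logTaylor_succ, Complex.logTaylor_succ,
      Complex.logTaylor_succ, Complex.logTaylor_zero]
    simp only [Pi.add_apply, Pi.zero_apply]
    push_cast
    ring
  rw [h2] at h1
  refine h1.trans ?_
  have h3 : (1 - ‖v‖)⁻¹ ≤ 4 / 3 := by
    rw [inv_le_comm₀ (by linarith) (by norm_num)]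
    norm_num
    linarith
  have h4 : 0 ≤ ‖v‖ ^ (3 + 1) := by positivity
  have h5 : ‖v‖ ^ (3 + 1) * (1 - ‖v‖)⁻¹ ≤ ‖v‖ ^ (3 + 1) * (4 / 3) :=
    mul_le_mul_of_nonneg_left h3 h4
  have h6 : ‖v‖ ^ (3 + 1) = ‖v‖ ^ 4 := rfl
  rw [h6] at h5 ⊢
  push_cast
  have h7 : ‖v‖ ^ 4 * (1 - ‖v‖)⁻¹ / (3 + 1) ≤ ‖v‖ ^ 4 * (4 / 3) / (3 + 1) := by gcongr
  refine h7.trans (le_of_eq ?_)
  ring

private theorem LogSound_main (x l1 : Z)
    (h : Nat.ble (Nat.add (logu x l1).1.mg (logu x l1).2) 274877906944 = true) :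
    ∃ L : ℂ, Complex.exp L = x.val ∧
      ‖L - (l1.add (log3 (logu x l1).1)).val‖ ≤
        ((Nat.add (Nat.add (Nat.mul 2 (logu x l1).2) (Nat.shiftRight
          (Nat.mul (Nat.mul (Nat.add (logu x l1).1.mg (logu x l1).2)
            (Nat.add (logu x l1).1.mg (logu x l1).2))
            (Nat.mul (Nat.add (logu x l1).1.mg (logu x l1).2)
            (Nat.add (logu x l1).1.mg (logu x l1).2))) 120)) 10 : ℕ) : ℝ) / 2 ^ 40 := by
  have hu := logu_sound x l1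
  have hmg := Z.norm_le_mg (logu x l1).1
  generalize hu1 : (logu x l1).1 = u1 at *
  generalize he1 : (logu x l1).2 = e1 at *
  generalize hm : Nat.add u1.mg e1 = m at *
  have hm' : m = u1.mg + e1 := hm.symm
  have hmle : m ≤ 274877906944 := Nat.le_of_ble_eq_true h
  have hmr : (m : ℝ) = (u1.mg : ℝ) + e1 := by rw [hm']; push_cast; rfl
  have hmler : (m : ℝ) ≤ 274877906944 := by exact_mod_cast hmle
  set U : ℂ := x.val * Complex.exp (-l1.val) - 1 with hU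
  set u : ℂ := u1.val with hudef
  have hUu : ‖U - u‖ ≤ (e1 : ℝ) / 2 ^ 40 := by rw [norm_sub_rev]; exact hu
  have hUm : ‖U‖ ≤ (m : ℝ) / 2 ^ 40 := by
    have h1 : ‖U‖ ≤ ‖U - u‖ + ‖u‖ := by
      have := norm_add_le (U - u) u
      rwa [sub_add_cancel] at this
    rw [hmr, add_div]
    linarith
  have hm4 : (m : ℝ) / 2 ^ 40 ≤ 1 / 4 := by
    rw [div_le_iff₀ (by positivity)]
    norm_num
    exact hmle
  have hU4 : ‖U‖ ≤ 1 / 4 := hUm.trans hm4
  have he0 : (0 : ℝ) ≤ (e1 : ℝ) := Nat.cast_nonneg _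
  have hu4 : ‖u‖ ≤ 1 / 4 := by
    refine hmg.trans (le_trans ?_ hm4)
    rw [hmr]
    gcongr
    linarith
  have h1U : 1 + U ≠ 0 := by
    intro h0
    have h1 : U = -1 := by linear_combination h0
    rw [h1, norm_neg, norm_one] at hU4
    norm_num at hU4
  refine ⟨l1.val + Complex.log (1 + U), ?_, ?_⟩
  · rw [Complex.exp_add, Complex.exp_log h1U, hU]
    have h2 : Complex.exp l1.val * Complex.exp (-l1.val) = 1 := by
      rw [← Complex.exp_add, add_neg_cancel, Complex.exp_zero]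
    linear_combination x.val * h2
  · rw [Z.val_add]
    have e2 : l1.val + Complex.log (1 + U) - (l1.val + (log3 u1).val) =
        (Complex.log (1 + U) - (U - U ^ 2 / 2 + U ^ 3 / 3)) +
        ((U - U ^ 2 / 2 + U ^ 3 / 3) - (u - u ^ 2 / 2 + u ^ 3 / 3)) +
        -((log3 u1).val - (u - u ^ 2 / 2 + u ^ 3 / 3)) := by ring
    rw [e2]
    have t1 := log_one_add_bound U hU4
    have t3 := log3_sound u1 hu4
    have t2 : ‖(U - U ^ 2 / 2 + U ^ 3 / 3) - (u - u ^ 2 / 2 + u ^ 3 / 3)‖ ≤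
        2 * ((e1 : ℝ) / 2 ^ 40) := by
      have e3 : (U - U ^ 2 / 2 + U ^ 3 / 3) - (u - u ^ 2 / 2 + u ^ 3 / 3) =
          (U - u) * (1 - (U + u) / 2 + (U ^ 2 + U * u + u ^ 2) / 3) := by ring
      rw [e3, norm_mul]
      have h3 : ‖1 - (U + u) / 2 + (U ^ 2 + U * u + u ^ 2) / 3‖ ≤ 2 := by
        have a1 : ‖1 - (U + u) / 2 + (U ^ 2 + U * u + u ^ 2) / 3‖ ≤
            ‖(1 : ℂ)‖ + ‖(U + u) / 2‖ + ‖(U ^ 2 + U * u + u ^ 2) / 3‖ :=
          (norm_add_le _ _).trans (add_le_add (norm_sub_le _ _) le_rfl)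
        have a2 : ‖(U + u) / 2‖ ≤ 1 / 4 := by
          rw [norm_div]
          have := norm_add_le U u
          norm_num
          linarith
        have a3 : ‖(U ^ 2 + U * u + u ^ 2) / 3‖ ≤ 1 / 16 := by
          rw [norm_div]
          have b1 := norm_add_le (U ^ 2 + U * u) (u ^ 2)
          have b2 := norm_add_le (U ^ 2) (U * u)
          rw [norm_pow] at b1 b2
          rw [norm_mul] at b2
          have c0 := norm_nonneg U
          have c1 := norm_nonneg u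
          norm_num
          nlinarith
        rw [norm_one] at a1
        linarith
      have h4 := norm_nonneg (U - u)
      nlinarith
    have t0 : ‖U‖ ^ 4 / 3 ≤ ((Nat.shiftRight (Nat.mul (Nat.mul m m) (Nat.mul m m)) 120 : ℕ) + 1) /
        2 ^ 40 := by
      have s1 := LogSound_shr (Nat.mul (Nat.mul m m) (Nat.mul m m)) 120
      have s2 : ((Nat.mul (Nat.mul m m) (Nat.mul m m) : ℕ) : ℝ) = (m : ℝ) ^ 4 := by
        show (((m * m) * (m * m) : ℕ) : ℝ) = (m : ℝ) ^ 4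
        push_cast
        ring
      rw [s2] at s1
      have s3 : ‖U‖ ^ 4 ≤ ((m : ℝ) / 2 ^ 40) ^ 4 :=
        pow_le_pow_left₀ (norm_nonneg _) hUm 4
      have s4 : ((m : ℝ) / 2 ^ 40) ^ 4 = ((m : ℝ) ^ 4 / 2 ^ 120) / 2 ^ 40 := by
        rw [div_pow, div_div, ← pow_mul, ← pow_add]
      rw [s4] at s3
      have s5 : (m : ℝ) ^ 4 / 2 ^ 120 / 2 ^ 40 ≤
          ((Nat.shiftRight (Nat.mul (Nat.mul m m) (Nat.mul m m)) 120 : ℕ) + 1) / 2 ^ 40 := by
        gcongr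
      have s6 : 0 ≤ ‖U‖ ^ 4 := by positivity
      linarith
    have t4 := norm_add_le (Complex.log (1 + U) - (U - U ^ 2 / 2 + U ^ 3 / 3) +
        ((U - U ^ 2 / 2 + U ^ 3 / 3) - (u - u ^ 2 / 2 + u ^ 3 / 3)))
        (-((log3 u1).val - (u - u ^ 2 / 2 + u ^ 3 / 3)))
    have t5 := norm_add_le (Complex.log (1 + U) - (U - U ^ 2 / 2 + U ^ 3 / 3))
        ((U - U ^ 2 / 2 + U ^ 3 / 3) - (u - u ^ 2 / 2 + u ^ 3 / 3))
    rw [norm_neg] at t4
    have t6 : (((Nat.add (Nat.add (Nat.mul 2 e1) (Nat.shiftRight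
        (Nat.mul (Nat.mul m m) (Nat.mul m m)) 120)) 10 : ℕ)) : ℝ) / 2 ^ 40 =
        2 * ((e1 : ℝ) / 2 ^ 40) +
        ((Nat.shiftRight (Nat.mul (Nat.mul m m) (Nat.mul m m)) 120 : ℕ) + 1) / 2 ^ 40 +
        9 / 2 ^ 40 := by
      show ((2 * e1 + Nat.shiftRight (Nat.mul (Nat.mul m m) (Nat.mul m m)) 120 + 10 : ℕ) : ℝ) /
        2 ^ 40 = _
      push_cast
      ring
    rw [t6]
    have t7 : (7 : ℝ) / 2 ^ 40 ≤ 9 / 2 ^ 40 := by gcongr; norm_num
    linarith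

/-- **Soundness of the logarithm** (as an inverse of `exp`; the branch is decided later).
Let `l1, u1, m` be as in the definition, `U := x.val * exp(-l1.val) - 1` (the true value), so
`‖U‖ ≤ m/2^40 ≤ 1/4` and `x.val = exp(l1.val) (1 + U)`; take `L := l1.val + log (1 + U)`.
`‖L - l2.val‖ ≤ ‖log(1+U) - P(U)‖ + ‖P(U) - P(u1)‖ + ‖P(u1) - log3 u1‖`, `P(v) = v - v²/2 + v³/3`;
the first is `≤ m^4/3`, the second `≤ 2 ‖U - u1‖` (for `‖U‖, ‖u1‖ ≤ 1/4`), the third `≤ 7` units. -/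
theorem Z.log_sound (x : Z) (h : x.log.2.2 = true) :
    ∃ L : ℂ, Complex.exp L = x.val ∧ ‖L - x.log.1.val‖ ≤ (x.log.2.1 : ℝ) / 2 ^ 40 := by
  exact LogSound_main x _ h

end Pool.Agent.helper31.IA
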