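import Pool.Agent.helper31.IA.ASound
import Pool.Agent.helper31.IA.LogSound

/-!
# IA-5: affine models, inverse, exponential, logarithm
-/

namespace Pool.Agent.helper31.IA

open Complex

private theorem shr_le40 (n : ℕ) : (n : ℝ) / 2 ^ 40 ≤ ((Nat.shiftRight n 40 : ℕ) : ℝ) + 1 := by
  have h1 : Nat.shiftRight n 40 = n / 2 ^ 40 := Nat.shiftRight_eq_div_pow n 40
  rw [h1, div_le_iff₀ (by positivity)]
  have h2 : n < 2 ^ 40 * (n / 2 ^ 40 + 1) := Nat.lt_mul_div_succ n (by positivity)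
  have h3 : (n : ℝ) < 2 ^ 40 * (((n / 2 ^ 40 : ℕ) : ℝ) + 1) := by exact_mod_cast h2
  linarith

private theorem shr_le80 (n : ℕ) : (n : ℝ) / 2 ^ 80 ≤ ((Nat.shiftRight n 80 : ℕ) : ℝ) + 1 := by
  have h1 : Nat.shiftRight n 80 = n / 2 ^ 80 := Nat.shiftRight_eq_div_pow n 80
  rw [h1, div_le_iff₀ (by positivity)]
  have h2 : n < 2 ^ 80 * (n / 2 ^ 80 + 1) := Nat.lt_mul_div_succ n (by positivity)
  have h3 : (n : ℝ) < 2 ^ 80 * (((n / 2 ^ 80 : ℕ) : ℝ) + 1) := by exact_mod_cast h2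
  linarith

private theorem shr_le82 (n : ℕ) : (n : ℝ) / 2 ^ 82 ≤ ((Nat.shiftRight n 82 : ℕ) : ℝ) + 1 := by
  have h1 : Nat.shiftRight n 82 = n / 2 ^ 82 := Nat.shiftRight_eq_div_pow n 82
  rw [h1, div_le_iff₀ (by positivity)]
  have h2 : n < 2 ^ 82 * (n / 2 ^ 82 + 1) := Nat.lt_mul_div_succ n (by positivity)
  have h3 : (n : ℝ) < 2 ^ 82 * (((n / 2 ^ 82 : ℕ) : ℝ) + 1) := by exact_mod_cast h2
  linarith

private theorem div_le_nat (n d : ℕ) (hd : 0 < d) :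
    (n : ℝ) / d ≤ ((Nat.div n d : ℕ) : ℝ) + 1 := by
  have hd' : (0 : ℝ) < d := by exact_mod_cast hd
  rw [div_le_iff₀ hd']
  have h2 : n < d * (n / d + 1) := Nat.lt_mul_div_succ n hd
  have h3 : (n : ℝ) < d * (((n / d : ℕ) : ℝ) + 1) := by exact_mod_cast h2
  have h4 : ((Nat.div n d : ℕ) : ℝ) = ((n / d : ℕ) : ℝ) := rfl
  rw [h4]
  linarith

private theorem cadd (a b : ℕ) : ((Nat.add a b : ℕ) : ℝ) = (a : ℝ) + b := Nat.cast_add a b

private theorem cmul (a b : ℕ) : ((Nat.mul a b : ℕ) : ℝ) = (a : ℝ) * b := Nat.cast_mul a b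

private theorem inv_core {K : ℝ} (hK : 0 < K) {c lin ρ w u2 dm : ℂ} {U G r D h e len : ℝ}
    (hc : c ≠ 0) (hw : ‖w - c⁻¹‖ ≤ 2 / K) (hwU : ‖w‖ ≤ U / K) (hcU : ‖c⁻¹‖ ≤ U / K)
    (hlin : ‖lin‖ ≤ G / K) (hρ : ‖ρ‖ ≤ r / K) (hδ : ‖lin + ρ‖ ≤ D / K) (hh : U * D / K ≤ h)
    (hh2 : h ≤ K / 2) (hu2 : ‖u2 - w * w‖ ≤ 2 / K) (he : 4 * U / K + 2 ≤ e)
    (hdm : ‖dm - u2 * lin‖ ≤ len / K) :
    c + (lin + ρ) ≠ 0 ∧ ‖(c + (lin + ρ))⁻¹ - (w - dm)‖ ≤
      (2 + len + e * G / K + U ^ 2 * r / K ^ 2 + U * h ^ 2 / (K * (K - h))) / K := by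
  obtain ⟨v, hv⟩ : ∃ v, v = (lin + ρ) * c⁻¹ := ⟨_, rfl⟩
  have hcv : lin + ρ = c * v := by rw [hv]; field_simp
  have hUK : 0 ≤ U / K := (norm_nonneg _).trans hcU
  have hDK : 0 ≤ D / K := (norm_nonneg _).trans hδ
  have hGK : 0 ≤ G / K := (norm_nonneg _).trans hlin
  have hrK : 0 ≤ r / K := (norm_nonneg _).trans hρ
  have hvn : ‖v‖ ≤ h / K := by
    rw [hv, norm_mul]
    calc ‖lin + ρ‖ * ‖c⁻¹‖ ≤ (D / K) * (U / K) := mul_le_mul hδ hcU (norm_nonneg _) hDK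
      _ = (U * D / K) / K := by ring
      _ ≤ h / K := by gcongr
  have hhK : h / K ≤ 1 / 2 := by rw [div_le_iff₀ hK]; linarith
  have hh0 : 0 ≤ h / K := (norm_nonneg _).trans hvn
  have h1v : 1 - h / K ≤ ‖1 + v‖ := by
    have h3 : ‖(1 : ℂ)‖ ≤ ‖1 + v‖ + ‖v‖ := by
      calc ‖(1 : ℂ)‖ = ‖(1 + v) - v‖ := by congr 1; ring
        _ ≤ ‖1 + v‖ + ‖v‖ := norm_sub_le _ _
    rw [norm_one] at h3
    linarith
  have h1vpos : 0 < ‖1 + v‖ := by linarith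
  have h1v0 : 1 + v ≠ 0 := norm_pos_iff.mp h1vpos
  have hz : c + (lin + ρ) = c * (1 + v) := by rw [hcv]; ring
  refine ⟨by rw [hz]; exact mul_ne_zero hc h1v0, ?_⟩
  have hid : (c + (lin + ρ))⁻¹ - (w - dm) =
      -(w - c⁻¹) + (dm - u2 * lin) + ((u2 - w * w) + (w - c⁻¹) * (w + c⁻¹)) * lin
        - c⁻¹ * c⁻¹ * ρ + c⁻¹ * v ^ 2 * (1 + v)⁻¹ := by
    have e1 : (1 + v)⁻¹ = 1 - v + v ^ 2 * (1 + v)⁻¹ := by
      field_simp
      ring
    have e2 : (c + (lin + ρ))⁻¹ = c⁻¹ - c⁻¹ * v + c⁻¹ * v ^ 2 * (1 + v)⁻¹ := by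
      rw [hz, mul_inv]
      calc c⁻¹ * (1 + v)⁻¹ = c⁻¹ * (1 - v + v ^ 2 * (1 + v)⁻¹) := by rw [← e1]
        _ = _ := by ring
    rw [e2]
    have e3 : c⁻¹ * v = c⁻¹ * c⁻¹ * lin + c⁻¹ * c⁻¹ * ρ := by rw [hv]; ring
    rw [e3]
    ring
  rw [hid]
  have b1 : ‖-(w - c⁻¹)‖ ≤ 2 / K := by rw [norm_neg]; exact hw
  have b3 : ‖((u2 - w * w) + (w - c⁻¹) * (w + c⁻¹)) * lin‖ ≤ (e / K) * (G / K) := by
    rw [norm_mul]
    refine mul_le_mul ?_ hlin (norm_nonneg _) ?_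
    · calc ‖(u2 - w * w) + (w - c⁻¹) * (w + c⁻¹)‖
          ≤ ‖u2 - w * w‖ + ‖w - c⁻¹‖ * ‖w + c⁻¹‖ := by
            refine (norm_add_le _ _).trans ?_
            rw [norm_mul]
        _ ≤ 2 / K + (2 / K) * (U / K + U / K) := by
            have hs : ‖w + c⁻¹‖ ≤ U / K + U / K := (norm_add_le _ _).trans (add_le_add hwU hcU)
            have hp := mul_le_mul hw hs (norm_nonneg _) (by positivity : (0:ℝ) ≤ 2 / K)
            linarith
        _ = (4 * U / K + 2) / K := by ring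
        _ ≤ e / K := by gcongr
    · have : 0 ≤ (4 * U / K + 2) / K := by
        have e0 : 4 * U / K = 4 * (U / K) := by ring
        rw [e0]; positivity
      exact this.trans (by gcongr)
  have b4 : ‖c⁻¹ * c⁻¹ * ρ‖ ≤ (U / K) * (U / K) * (r / K) := by
    rw [norm_mul, norm_mul]
    gcongr
  have b5 : ‖c⁻¹ * v ^ 2 * (1 + v)⁻¹‖ ≤ (U / K) * (h / K) ^ 2 * (1 / (1 - h / K)) := by
    rw [norm_mul, norm_mul, norm_pow, norm_inv (1 + v)]
    have hp : (0:ℝ) < 1 - h / K := by linarith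
    have hi : ‖1 + v‖⁻¹ ≤ 1 / (1 - h / K) := by
      rw [inv_eq_one_div]
      exact one_div_le_one_div_of_le hp h1v
    gcongr
  have hfin : (U / K) * (h / K) ^ 2 * (1 / (1 - h / K)) = (U * h ^ 2 / (K * (K - h))) / K := by
    have hKh : K - h ≠ 0 := by
      have : 0 < K - h := by linarith
      exact this.ne'
    have h1K : 1 - h / K ≠ 0 := by
      have : 0 < 1 - h / K := by linarith
      exact this.ne'
    have hK0 : K ≠ 0 := hK.ne'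
    have e0 : 1 - h / K = (K - h) / K := by field_simp
    rw [e0]
    field_simp
  calc ‖-(w - c⁻¹) + (dm - u2 * lin) + ((u2 - w * w) + (w - c⁻¹) * (w + c⁻¹)) * lin
        - c⁻¹ * c⁻¹ * ρ + c⁻¹ * v ^ 2 * (1 + v)⁻¹‖
      ≤ ‖-(w - c⁻¹)‖ + ‖dm - u2 * lin‖ + ‖((u2 - w * w) + (w - c⁻¹) * (w + c⁻¹)) * lin‖
        + ‖c⁻¹ * c⁻¹ * ρ‖ + ‖c⁻¹ * v ^ 2 * (1 + v)⁻¹‖ := by
        refine (norm_add_le _ _).trans (add_le_add ?_ le_rfl)
        refine (norm_sub_le _ _).trans (add_le_add ?_ le_rfl)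
        refine (norm_add_le _ _).trans (add_le_add ?_ le_rfl)
        exact norm_add_le _ _
    _ ≤ 2 / K + len / K + (e / K) * (G / K) + (U / K) * (U / K) * (r / K)
        + (U / K) * (h / K) ^ 2 * (1 / (1 - h / K)) := by gcongr
    _ = (2 + len + e * G / K + U ^ 2 * r / K ^ 2 + U * h ^ 2 / (K * (K - h))) / K := by
        rw [hfin]
        have hK0 : K ≠ 0 := hK.ne'
        field_simp

private theorem exp_core' {K : ℝ} (hK : 0 < K) {c lin ρ E1 dm : ℂ} {M G r D e len : ℝ}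
    (hE : ‖E1 - Complex.exp c‖ ≤ e / K) (hM : ‖Complex.exp c‖ ≤ M / K)
    (hlin : ‖lin‖ ≤ G / K) (hρ : ‖ρ‖ ≤ r / K) (hδ : ‖lin + ρ‖ ≤ D / K) (hD : D ≤ K)
    (hdm : ‖dm - E1 * lin‖ ≤ len / K) :
    ‖Complex.exp (c + (lin + ρ)) - (E1 + dm)‖ ≤
      (e + e * G / K + len + M * (r + (D ^ 2 * (2 * K + D) / (4 * K ^ 2))) / K) / K := by
  obtain ⟨δ, hd⟩ : ∃ δ, δ = lin + ρ := ⟨_, rfl⟩
  have hMK : 0 ≤ M / K := (norm_nonneg _).trans hM
  have heK : 0 ≤ e / K := (norm_nonneg _).trans hE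
  have hδ1 : ‖δ‖ ≤ D / K := by rw [hd]; exact hδ
  have hDK1 : D / K ≤ 1 := by rw [div_le_one hK]; exact hD
  have hDK0 : 0 ≤ D / K := (norm_nonneg _).trans hδ1
  have hR : ‖Complex.exp δ - 1 - δ‖ ≤ (D / K) ^ 2 / 2 + (D / K) ^ 3 / 4 := by
    have hb := Complex.exp_bound (x := δ) (hδ1.trans hDK1) (n := 3) (by norm_num)
    have hs : ∑ m ∈ Finset.range 3, δ ^ m / (Nat.factorial m : ℂ) = 1 + δ + δ ^ 2 / 2 := by
      simp [Finset.sum_range_succ, Nat.factorial]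
    rw [hs] at hb
    have e1 : Complex.exp δ - 1 - δ = (Complex.exp δ - (1 + δ + δ ^ 2 / 2)) + δ ^ 2 / 2 := by ring
    rw [e1]
    refine (norm_add_le _ _).trans ?_
    have h2 : ‖δ ^ 2 / 2‖ ≤ (D / K) ^ 2 / 2 := by
      rw [norm_div, norm_pow]
      have : ‖(2 : ℂ)‖ = 2 := by simp
      rw [this]
      gcongr
    have h3 : ‖Complex.exp δ - (1 + δ + δ ^ 2 / 2)‖ ≤ (D / K) ^ 3 / 4 := by
      refine hb.trans ?_
      have h4 : ‖δ‖ ^ 3 ≤ (D / K) ^ 3 := by gcongr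
      have h5 : ((Nat.succ 3 : ℕ) : ℝ) * (((Nat.factorial 3 : ℕ) : ℝ) * ((3 : ℕ) : ℝ))⁻¹ ≤ 1 / 4 := by
        norm_num [Nat.factorial]
      calc ‖δ‖ ^ 3 * (((Nat.succ 3 : ℕ) : ℝ) * (((Nat.factorial 3 : ℕ) : ℝ) * ((3 : ℕ) : ℝ))⁻¹)
          ≤ (D / K) ^ 3 * (1 / 4) := by gcongr
        _ = (D / K) ^ 3 / 4 := by ring
    linarith
  have hid : Complex.exp (c + (lin + ρ)) - (E1 + dm) =
      -(E1 - Complex.exp c) + -(E1 - Complex.exp c) * lin + -(dm - E1 * lin)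
        + Complex.exp c * (ρ + (Complex.exp δ - 1 - δ)) := by
    rw [← hd, Complex.exp_add]
    have e1 : ρ = δ - lin := by rw [hd]; ring
    rw [e1]
    ring
  rw [hid]
  have b1 : ‖-(E1 - Complex.exp c)‖ ≤ e / K := by rw [norm_neg]; exact hE
  have b2 : ‖-(E1 - Complex.exp c) * lin‖ ≤ (e / K) * (G / K) := by
    rw [norm_mul]
    exact mul_le_mul b1 hlin (norm_nonneg _) heK
  have b3 : ‖-(dm - E1 * lin)‖ ≤ len / K := by rw [norm_neg]; exact hdm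
  have b4 : ‖Complex.exp c * (ρ + (Complex.exp δ - 1 - δ))‖ ≤
      (M / K) * (r / K + ((D / K) ^ 2 / 2 + (D / K) ^ 3 / 4)) := by
    rw [norm_mul]
    refine mul_le_mul hM ?_ (norm_nonneg _) hMK
    exact (norm_add_le _ _).trans (add_le_add hρ hR)
  calc ‖-(E1 - Complex.exp c) + -(E1 - Complex.exp c) * lin + -(dm - E1 * lin)
        + Complex.exp c * (ρ + (Complex.exp δ - 1 - δ))‖
      ≤ ‖-(E1 - Complex.exp c)‖ + ‖-(E1 - Complex.exp c) * lin‖ + ‖-(dm - E1 * lin)‖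
        + ‖Complex.exp c * (ρ + (Complex.exp δ - 1 - δ))‖ := by
        refine (norm_add_le _ _).trans (add_le_add ?_ le_rfl)
        refine (norm_add_le _ _).trans (add_le_add ?_ le_rfl)
        exact norm_add_le _ _
    _ ≤ e / K + (e / K) * (G / K) + len / K +
        (M / K) * (r / K + ((D / K) ^ 2 / 2 + (D / K) ^ 3 / 4)) := by gcongr
    _ = (e + e * G / K + len + M * (r + (D ^ 2 * (2 * K + D) / (4 * K ^ 2))) / K) / K := by
        have hK0 : K ≠ 0 := hK.ne'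
        field_simp
        ring

private theorem log_core {K : ℝ} (hK : 0 < K) {c lin ρ w dm L l1 : ℂ} {U G r D h e len im : ℝ}
    (hc : c ≠ 0) (hw : ‖w - c⁻¹‖ ≤ 2 / K) (hcU : ‖c⁻¹‖ ≤ U / K)
    (hlin : ‖lin‖ ≤ G / K) (hρ : ‖ρ‖ ≤ r / K) (hδ : ‖lin + ρ‖ ≤ D / K) (hh : U * D / K ≤ h)
    (hh2 : h ≤ K / 2) (hdm : ‖dm - w * lin‖ ≤ len / K) (hL : Complex.exp L = c)
    (hl : ‖L - l1‖ ≤ e / K) (him : |l1.im| ≤ im / K) (hpi : im + (e + 2 * h) ≤ 3.14 * K) :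
    c + (lin + ρ) ∈ slitPlane ∧ ‖Complex.log (c + (lin + ρ)) - (l1 + dm)‖ ≤
      (e + 2 * G / K + len + U * r / K + (h ^ 2 * (3 * K + 4 * h) / (6 * K ^ 2))) / K := by
  obtain ⟨v, hv⟩ : ∃ v, v = (lin + ρ) * c⁻¹ := ⟨_, rfl⟩
  have hcv : lin + ρ = c * v := by rw [hv]; field_simp
  have hUK : 0 ≤ U / K := (norm_nonneg _).trans hcU
  have hDK : 0 ≤ D / K := (norm_nonneg _).trans hδ
  have hGK : 0 ≤ G / K := (norm_nonneg _).trans hlin
  have hrK : 0 ≤ r / K := (norm_nonneg _).trans hρ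
  have hvn : ‖v‖ ≤ h / K := by
    rw [hv, norm_mul]
    calc ‖lin + ρ‖ * ‖c⁻¹‖ ≤ (D / K) * (U / K) := mul_le_mul hδ hcU (norm_nonneg _) hDK
      _ = (U * D / K) / K := by ring
      _ ≤ h / K := by gcongr
  have hhK : h / K ≤ 1 / 2 := by rw [div_le_iff₀ hK]; linarith
  have hh0 : 0 ≤ h / K := (norm_nonneg _).trans hvn
  have hv2 : ‖v‖ ≤ 1 / 2 := hvn.trans hhK
  have hv1 : ‖v‖ < 1 := lt_of_le_of_lt hv2 (by norm_num)
  have h1v0 : 1 + v ≠ 0 := by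
    intro h0
    have : v = -1 := by linear_combination h0
    rw [this] at hv1
    simp at hv1
  have hz : c + (lin + ρ) = c * (1 + v) := by rw [hcv]; ring
  have hexp : Complex.exp (L + Complex.log (1 + v)) = c + (lin + ρ) := by
    rw [Complex.exp_add, hL, Complex.exp_log h1v0, hz]
  have hlog1 : ‖Complex.log (1 + v)‖ ≤ 2 * (h / K) := by
    have := Complex.norm_log_one_add_half_le_self hv2
    have h0 := norm_nonneg v
    linarith
  have himL : |(L + Complex.log (1 + v)).im| ≤ 3.14 := by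
    have e1 : (L + Complex.log (1 + v)).im = l1.im + (L - l1).im + (Complex.log (1 + v)).im := by
      simp
    rw [e1]
    have t1 : |(L - l1).im| ≤ e / K := (Complex.abs_im_le_norm _).trans hl
    have t2 : |(Complex.log (1 + v)).im| ≤ 2 * (h / K) := (Complex.abs_im_le_norm _).trans hlog1
    have t3 : im / K + e / K + 2 * (h / K) ≤ 3.14 := by
      have : im / K + e / K + 2 * (h / K) = (im + (e + 2 * h)) / K := by ring
      rw [this, div_le_iff₀ hK]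
      exact hpi
    calc |l1.im + (L - l1).im + (Complex.log (1 + v)).im|
        ≤ |l1.im| + |(L - l1).im| + |(Complex.log (1 + v)).im| := by
          refine (abs_add_le _ _).trans (add_le_add ?_ le_rfl)
          exact abs_add_le _ _
      _ ≤ 3.14 := by linarith
  have hpi' : (3.14 : ℝ) < Real.pi := Real.pi_gt_d2
  have himb := abs_le.mp himL
  have hlog : Complex.log (c + (lin + ρ)) = L + Complex.log (1 + v) := by
    rw [← hexp]
    exact Complex.log_exp (by linarith) (by linarith)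
  refine ⟨?_, ?_⟩
  · rw [Complex.mem_slitPlane_iff_arg]
    constructor
    · have : Complex.arg (c + (lin + ρ)) = (Complex.log (c + (lin + ρ))).im := by
        rw [Complex.log_im]
      rw [this, hlog]
      intro hh3
      linarith
    · rw [hz]
      exact mul_ne_zero hc h1v0
  · have hR : ‖Complex.log (1 + v) - v‖ ≤ (h / K) ^ 2 / 2 + 2 * (h / K) ^ 3 / 3 := by
      have hb := Complex.norm_log_sub_logTaylor_le 2 hv1
      have hs : Complex.logTaylor (2 + 1) v = v - v ^ 2 / 2 := by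
        simp [Complex.logTaylor, Finset.sum_range_succ]
        ring
      rw [hs] at hb
      have e1 : Complex.log (1 + v) - v = (Complex.log (1 + v) - (v - v ^ 2 / 2)) - v ^ 2 / 2 := by
        ring
      rw [e1]
      refine (norm_sub_le _ _).trans ?_
      have h2 : ‖v ^ 2 / 2‖ ≤ (h / K) ^ 2 / 2 := by
        rw [norm_div, norm_pow]
        have : ‖(2 : ℂ)‖ = 2 := by simp
        rw [this]
        gcongr
      have h3 : ‖Complex.log (1 + v) - (v - v ^ 2 / 2)‖ ≤ 2 * (h / K) ^ 3 / 3 := by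
        refine hb.trans ?_
        have h5 : (1 - ‖v‖)⁻¹ ≤ 2 := by
          rw [inv_le_comm₀ (by linarith) (by norm_num)]
          linarith
        have h50 : 0 ≤ (1 - ‖v‖)⁻¹ := by
          apply inv_nonneg.mpr
          linarith
        have h6 : ‖v‖ ^ (2 + 1) ≤ (h / K) ^ 3 := by gcongr
        calc ‖v‖ ^ (2 + 1) * (1 - ‖v‖)⁻¹ / ((2 : ℕ) + 1)
            ≤ (h / K) ^ 3 * 2 / ((2 : ℕ) + 1) := by gcongr
          _ = 2 * (h / K) ^ 3 / 3 := by push_cast; ring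
      linarith
    have hid : Complex.log (c + (lin + ρ)) - (l1 + dm) =
        (L - l1) + -(w - c⁻¹) * lin + -(dm - w * lin) + c⁻¹ * ρ
          + (Complex.log (1 + v) - v) := by
      rw [hlog]
      have e1 : v = c⁻¹ * lin + c⁻¹ * ρ := by rw [hv]; ring
      linear_combination e1
    rw [hid]
    have b2 : ‖-(w - c⁻¹) * lin‖ ≤ (2 / K) * (G / K) := by
      rw [norm_mul, norm_neg]
      exact mul_le_mul hw hlin (norm_nonneg _) (by positivity)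
    have b3 : ‖-(dm - w * lin)‖ ≤ len / K := by rw [norm_neg]; exact hdm
    have b4 : ‖c⁻¹ * ρ‖ ≤ (U / K) * (r / K) := by
      rw [norm_mul]
      exact mul_le_mul hcU hρ (norm_nonneg _) hUK
    calc ‖(L - l1) + -(w - c⁻¹) * lin + -(dm - w * lin) + c⁻¹ * ρ
          + (Complex.log (1 + v) - v)‖
        ≤ ‖L - l1‖ + ‖-(w - c⁻¹) * lin‖ + ‖-(dm - w * lin)‖ + ‖c⁻¹ * ρ‖
          + ‖Complex.log (1 + v) - v‖ := by
          refine (norm_add_le _ _).trans (add_le_add ?_ le_rfl)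
          refine (norm_add_le _ _).trans (add_le_add ?_ le_rfl)
          refine (norm_add_le _ _).trans (add_le_add ?_ le_rfl)
          exact norm_add_le _ _
      _ ≤ e / K + (2 / K) * (G / K) + len / K + (U / K) * (r / K)
          + ((h / K) ^ 2 / 2 + 2 * (h / K) ^ 3 / 3) := by gcongr
      _ = (e + 2 * G / K + len + U * r / K + (h ^ 2 * (3 * K + 4 * h) / (6 * K ^ 2))) / K := by
          have hK0 : K ≠ 0 := hK.ne'
          field_simp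
          ring

private theorem c_ne_zero (x : Z) (h : 1 ≤ x.nsq) : x.val ≠ 0 := by
  intro h0
  have h1 := Z.nsq_eq x
  rw [h0] at h1
  have h2 : (1 : ℝ) ≤ (x.nsq : ℝ) := by exact_mod_cast h
  rw [h1] at h2
  simp at h2
  norm_num at h2

/-- `1/(c + δ) = 1/c - δ/c² + (1/c) v²/(1 + v)`, `v = δ/c`, `‖v‖ ≤ h/2^40 ≤ 1/2`, where
`U/2^40 ≥ ‖1/c‖` (`Z.val_inv`).  Errors in units: centre `2`; `|u² - 1/c²| ≤ e2` (`2 * 2U/2^40 + 2`)
times `‖lin‖`; rounding `lenL`; `ρ/c²`: `U² r`; last term `U h²/(1 - h)`; the shifts and the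
division lose less than `1` each. -/
theorem Mem.inv {ε : List ℂ} (hε : Small ε) {x : A} {u : ℂ} (hx : Mem ε x u)
    (hok : x.inv.ok = true) : u ≠ 0 ∧ Mem ε x.inv u⁻¹ := by
  have hok' := hok
  simp only [A.inv, Bool.and_eq_true, Nat.ble_eq] at hok'
  obtain ⟨⟨hxok, hn⟩, hh⟩ := hok'
  obtain ⟨ρ, hz, hρ, hlin, hδ⟩ := Mem.split hε hx hxok
  have hc := c_ne_zero x.c hn
  have hw := Z.val_inv x.c hn
  have hm := Z.norm_le_mag x.c.inv
  have hK : (0 : ℝ) < 2 ^ 40 := by positivity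
  obtain ⟨U, hU⟩ : ∃ U : ℕ, U = Nat.add x.c.inv.mag 2 := ⟨_, rfl⟩
  obtain ⟨D, hD⟩ : ∃ D : ℕ, D = Nat.add (magL x.g) x.r := ⟨_, rfl⟩
  obtain ⟨h, hh0⟩ : ∃ h : ℕ, h = Nat.add (Nat.shiftRight (Nat.mul U D) 40) 1 := ⟨_, rfl⟩
  obtain ⟨e2, he2⟩ : ∃ e2 : ℕ, e2 = Nat.add (Nat.shiftRight (Nat.mul 4 U) 40) 3 := ⟨_, rfl⟩
  rw [← hU, ← hD, ← hh0] at hh
  rw [← hD] at hδ
  have hUr : (U : ℝ) = x.c.inv.mag + 2 := by rw [hU, cadd]; norm_num
  have hhr : (h : ℝ) = ((Nat.shiftRight (Nat.mul U D) 40 : ℕ) : ℝ) + 1 := by rw [hh0, cadd]; norm_num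
  have her : (e2 : ℝ) = ((Nat.shiftRight (Nat.mul 4 U) 40 : ℕ) : ℝ) + 3 := by rw [he2, cadd]; norm_num
  have hwU : ‖x.c.inv.val‖ ≤ (U : ℝ) / 2 ^ 40 := by
    refine hm.trans ?_
    rw [hUr]
    gcongr
    linarith
  have hcU : ‖(x.c.val)⁻¹‖ ≤ (U : ℝ) / 2 ^ 40 := by
    have e1 : (x.c.val)⁻¹ = x.c.inv.val - (x.c.inv.val - (x.c.val)⁻¹) := by ring
    rw [e1]
    refine (norm_sub_le _ _).trans ?_
    rw [hUr, add_div]
    exact add_le_add hm hw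
  have hUD : (U : ℝ) * D / 2 ^ 40 ≤ h := by
    have := shr_le40 (Nat.mul U D)
    rw [cmul] at this
    rw [hhr]
    exact this
  have hh2 : (h : ℝ) ≤ 2 ^ 40 / 2 := by
    have : (h : ℝ) ≤ (549755813888 : ℕ) := by exact_mod_cast hh
    refine this.trans ?_
    norm_num
  have hu2 := Z.val_mul x.c.inv x.c.inv
  have he : 4 * (U : ℝ) / 2 ^ 40 + 2 ≤ e2 := by
    have := shr_le40 (Nat.mul 4 U)
    rw [cmul] at this
    rw [her]
    push_cast at this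
    linarith
  have hdm := dot_mulL (x.c.inv.mul x.c.inv) x.g hε
  have key := inv_core hK hc hw hwU hcU hlin hρ hδ hUD hh2 hu2 he hdm
  rw [← hz] at key
  refine ⟨key.1, fun _ => ?_⟩
  have hg : dot x.inv.g ε = -dot (mulL (x.c.inv.mul x.c.inv) x.g) ε := by
    show dot (negL (mulL (x.c.inv.mul x.c.inv) x.g)) ε = _
    rw [dot_negL]
  have hcc : x.inv.c = x.c.inv := rfl
  rw [hg, hcc]
  have e1 : x.c.inv.val + -dot (mulL (x.c.inv.mul x.c.inv) x.g) ε =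
      x.c.inv.val - dot (mulL (x.c.inv.mul x.c.inv) x.g) ε := by ring
  rw [e1]
  refine key.2.trans ?_
  have hr : (x.inv.r : ℝ) =
      ((Nat.shiftRight (Nat.mul e2 (magL x.g)) 40 : ℕ) : ℝ) + lenL x.g
        + ((Nat.shiftRight (Nat.mul (Nat.mul U U) x.r) 80 : ℕ) : ℝ)
        + (((Nat.div (Nat.mul U (Nat.mul h h)) (Nat.shiftLeft (Nat.sub 1099511627776 h) 40) : ℕ) : ℝ)
          + 6) := by
    have e0 : x.inv.r = Nat.add
        (Nat.add (Nat.add (Nat.shiftRight (Nat.mul e2 (magL x.g)) 40) (lenL x.g))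
          (Nat.shiftRight (Nat.mul (Nat.mul U U) x.r) 80))
        (Nat.add (Nat.div (Nat.mul U (Nat.mul h h))
          (Nat.shiftLeft (Nat.sub 1099511627776 h) 40)) 6) := by
      rw [he2, hh0, hD, hU]
      rfl
    rw [e0]
    simp only [cadd]
    norm_num
  have s1 := shr_le40 (Nat.mul e2 (magL x.g))
  have s2 := shr_le80 (Nat.mul (Nat.mul U U) x.r)
  have hle : h ≤ 1099511627776 := by
    have : (h : ℝ) ≤ (1099511627776 : ℕ) := hh2.trans (by norm_num)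
    exact_mod_cast this
  have hlt : h < 1099511627776 := by
    have : (h : ℝ) < (1099511627776 : ℕ) := lt_of_le_of_lt hh2 (by norm_num)
    exact_mod_cast this
  have hsl : ((Nat.shiftLeft (Nat.sub 1099511627776 h) 40 : ℕ) : ℝ) =
      2 ^ 40 * (2 ^ 40 - (h : ℝ)) := by
    have e0 : Nat.shiftLeft (Nat.sub 1099511627776 h) 40 = (1099511627776 - h) * 2 ^ 40 :=
      Nat.shiftLeft_eq _ _
    rw [e0, Nat.cast_mul, Nat.cast_sub hle]
    norm_num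
    ring
  have hslpos : 0 < Nat.shiftLeft (Nat.sub 1099511627776 h) 40 := by
    have : (0 : ℝ) < ((Nat.shiftLeft (Nat.sub 1099511627776 h) 40 : ℕ) : ℝ) := by
      rw [hsl]
      have : (h : ℝ) < 2 ^ 40 := by linarith
      have h0 : (0 : ℝ) < 2 ^ 40 - h := by linarith
      positivity
    exact_mod_cast this
  have s3 := div_le_nat (Nat.mul U (Nat.mul h h)) _ hslpos
  rw [hsl] at s3
  simp only [cmul] at s1 s2 s3
  have s2' : (U : ℝ) ^ 2 * x.r / (2 ^ 40) ^ 2 ≤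
      ((Nat.shiftRight (Nat.mul (Nat.mul U U) x.r) 80 : ℕ) : ℝ) + 1 := by
    have e0 : (U : ℝ) ^ 2 * x.r / (2 ^ 40) ^ 2 = (U : ℝ) * U * x.r / 2 ^ 80 := by ring
    rw [e0]; exact s2
  have s3' : (U : ℝ) * h ^ 2 / (2 ^ 40 * (2 ^ 40 - (h : ℝ))) ≤
      ((Nat.div (Nat.mul U (Nat.mul h h)) (Nat.shiftLeft (Nat.sub 1099511627776 h) 40) : ℕ) : ℝ)
        + 1 := by
    have e0 : (U : ℝ) * h ^ 2 = (U : ℝ) * (h * h) := by ring
    rw [e0]; exact s3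
  rw [hr]
  refine div_le_div_of_nonneg_right ?_ hK.le
  linarith

/-- `exp(c + δ) = exp c (1 + δ + R)`, `‖R‖ ≤ ‖δ‖²/2 + ‖δ‖³/4` for `‖δ‖ ≤ 1`. -/
theorem Mem.exp {ε : List ℂ} (hε : Small ε) {x : A} {u : ℂ} (hx : Mem ε x u) :
    Mem ε x.exp (Complex.exp u) := by
  intro hok
  have hok' := hok
  simp only [A.exp, Bool.and_eq_true, Nat.ble_eq] at hok'
  obtain ⟨hxok, hD1⟩ := hok'
  obtain ⟨ρ, hz, hρ, hlin, hδ⟩ := Mem.split hε hx hxok
  have hK : (0 : ℝ) < 2 ^ 40 := by positivity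
  have hE := Z.exp_sound x.c
  have hm := Z.norm_le_mag x.c.exp.1
  obtain ⟨D, hD⟩ : ∃ D : ℕ, D = Nat.add (magL x.g) x.r := ⟨_, rfl⟩
  obtain ⟨M, hM⟩ : ∃ M : ℕ, M = Nat.add x.c.exp.1.mag x.c.exp.2 := ⟨_, rfl⟩
  obtain ⟨q, hq⟩ : ∃ q : ℕ, q = Nat.add (Nat.shiftRight (Nat.mul (Nat.mul D D)
    (Nat.add 2199023255552 D)) 82) 1 := ⟨_, rfl⟩
  rw [← hD] at hδ hD1
  have hMr : (M : ℝ) = x.c.exp.1.mag + x.c.exp.2 := by rw [hM, cadd]
  have hqr : (q : ℝ) = ((Nat.shiftRight (Nat.mul (Nat.mul D D)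
    (Nat.add 2199023255552 D)) 82 : ℕ) : ℝ) + 1 := by rw [hq, cadd]; norm_num
  have hMb : ‖Complex.exp x.c.val‖ ≤ (M : ℝ) / 2 ^ 40 := by
    have e1 : Complex.exp x.c.val = x.c.exp.1.val - (x.c.exp.1.val - Complex.exp x.c.val) := by ring
    rw [e1]
    refine (norm_sub_le _ _).trans ?_
    rw [hMr, add_div]
    exact add_le_add hm hE
  have hDK : (D : ℝ) ≤ 2 ^ 40 := by
    have : (D : ℝ) ≤ (1099511627776 : ℕ) := by exact_mod_cast hD1
    refine this.trans ?_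
    norm_num
  have hdm := dot_mulL x.c.exp.1 x.g hε
  have key := exp_core' hK hE hMb hlin hρ hδ hDK hdm
  rw [← hz] at key
  have hg : dot x.exp.g ε = dot (mulL x.c.exp.1 x.g) ε := rfl
  have hcc : x.exp.c = x.c.exp.1 := rfl
  rw [hg, hcc]
  refine key.trans ?_
  have hr : (x.exp.r : ℝ) =
      (x.c.exp.2 : ℝ) + ((Nat.shiftRight (Nat.mul x.c.exp.2 (magL x.g)) 40 : ℕ) : ℝ) + lenL x.g
        + (((Nat.shiftRight (Nat.mul M (Nat.add x.r q)) 40 : ℕ) : ℝ) + 3) := by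
    have e0 : x.exp.r = Nat.add
        (Nat.add (Nat.add x.c.exp.2 (Nat.shiftRight (Nat.mul x.c.exp.2 (magL x.g)) 40)) (lenL x.g))
        (Nat.add (Nat.shiftRight (Nat.mul M (Nat.add x.r q)) 40) 3) := by
      rw [hq, hM, hD]
      rfl
    rw [e0]
    simp only [cadd]
    norm_num
  have s1 := shr_le40 (Nat.mul x.c.exp.2 (magL x.g))
  have s2 := shr_le40 (Nat.mul M (Nat.add x.r q))
  have s3 := shr_le82 (Nat.mul (Nat.mul D D) (Nat.add 2199023255552 D))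
  rw [← hqr] at s3
  simp only [cmul, cadd] at s1 s2 s3
  have s3' : (D : ℝ) ^ 2 * (2 * 2 ^ 40 + D) / (4 * (2 ^ 40) ^ 2) ≤ q := by
    have e0 : (D : ℝ) ^ 2 * (2 * 2 ^ 40 + D) / (4 * (2 ^ 40) ^ 2) =
        (D : ℝ) * D * (((2199023255552 : ℕ) : ℝ) + D) / 2 ^ 82 := by
      push_cast
      ring
    rw [e0]; exact s3
  have s4 : (M : ℝ) * (x.r + (D : ℝ) ^ 2 * (2 * 2 ^ 40 + D) / (4 * (2 ^ 40) ^ 2)) / 2 ^ 40 ≤
      ((Nat.shiftRight (Nat.mul M (Nat.add x.r q)) 40 : ℕ) : ℝ) + 1 := by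
    refine le_trans ?_ s2
    gcongr
  rw [hr]
  refine div_le_div_of_nonneg_right ?_ hK.le
  linarith

/-- `v = δ/c`, `‖v‖ ≤ h/2^40 ≤ 1/2`: `‖log(1+v) - v‖ ≤ ‖v‖²/2 + 2‖v‖³/3`, `‖log(1+v)‖ ≤ 2‖v‖`.
`Z.log_sound` gives `L` with `exp L = c`; `L + log (1+v)` is a logarithm of `u = c + δ` with
imaginary part `≤ im + e + 2h < 3.14 < π`, so it is `Complex.log u` (`Complex.log_exp`) and
`|arg u| < π`. -/
theorem Mem.log {ε : List ℂ} (hε : Small ε) {x : A} {u : ℂ} (hx : Mem ε x u)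
    (hok : x.log.ok = true) : u ∈ slitPlane ∧ Mem ε x.log (Complex.log u) := by
  have hok' := hok
  simp only [A.log, Bool.and_eq_true, Nat.ble_eq] at hok'
  obtain ⟨⟨⟨⟨hxok, hlok⟩, hn⟩, hh⟩, hpi⟩ := hok'
  obtain ⟨ρ, hz, hρ, hlin, hδ⟩ := Mem.split hε hx hxok
  have hc := c_ne_zero x.c hn
  have hw := Z.val_inv x.c hn
  have hm := Z.norm_le_mag x.c.inv
  have hK : (0 : ℝ) < 2 ^ 40 := by positivity
  obtain ⟨L, hL, hl⟩ := Z.log_sound x.c hlok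
  obtain ⟨U, hU⟩ : ∃ U : ℕ, U = Nat.add x.c.inv.mag 2 := ⟨_, rfl⟩
  obtain ⟨D, hD⟩ : ∃ D : ℕ, D = Nat.add (magL x.g) x.r := ⟨_, rfl⟩
  obtain ⟨h, hh0⟩ : ∃ h : ℕ, h = Nat.add (Nat.shiftRight (Nat.mul U D) 40) 1 := ⟨_, rfl⟩
  obtain ⟨im, him0⟩ : ∃ im : ℕ, im = Nat.add (Nat.sub x.c.log.1.c x.c.log.1.d)
    (Nat.sub x.c.log.1.d x.c.log.1.c) := ⟨_, rfl⟩
  obtain ⟨q, hq⟩ : ∃ q : ℕ, q = Nat.add (Nat.div (Nat.mul (Nat.mul h h)
    (Nat.add 3298534883328 (Nat.mul 4 h))) 7253554917687775048237056) 1 := ⟨_, rfl⟩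
  rw [← hU, ← hD, ← hh0] at hh
  rw [← hU, ← hD, ← hh0, ← him0] at hpi
  rw [← hD] at hδ
  have hUr : (U : ℝ) = x.c.inv.mag + 2 := by rw [hU, cadd]; norm_num
  have hhr : (h : ℝ) = ((Nat.shiftRight (Nat.mul U D) 40 : ℕ) : ℝ) + 1 := by rw [hh0, cadd]; norm_num
  have hcU : ‖(x.c.val)⁻¹‖ ≤ (U : ℝ) / 2 ^ 40 := by
    have e1 : (x.c.val)⁻¹ = x.c.inv.val - (x.c.inv.val - (x.c.val)⁻¹) := by ring
    rw [e1]
    refine (norm_sub_le _ _).trans ?_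
    rw [hUr, add_div]
    exact add_le_add hm hw
  have hUD : (U : ℝ) * D / 2 ^ 40 ≤ h := by
    have := shr_le40 (Nat.mul U D)
    rw [cmul] at this
    rw [hhr]
    exact this
  have hh2 : (h : ℝ) ≤ 2 ^ 40 / 2 := by
    have : (h : ℝ) ≤ (549755813888 : ℕ) := by exact_mod_cast hh
    refine this.trans ?_
    norm_num
  have hdm := dot_mulL x.c.inv x.g hε
  have him : |x.c.log.1.val.im| ≤ (im : ℝ) / 2 ^ 40 := by
    rw [Z.im_val, abs_div, abs_of_pos hK, him0, cadd]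
    gcongr
    rcases le_total x.c.log.1.c x.c.log.1.d with hcd | hcd
    · have e1 : ((Nat.sub x.c.log.1.d x.c.log.1.c : ℕ) : ℝ) = x.c.log.1.d - x.c.log.1.c :=
        Nat.cast_sub hcd
      have e2 : (0 : ℝ) ≤ ((Nat.sub x.c.log.1.c x.c.log.1.d : ℕ) : ℝ) := Nat.cast_nonneg _
      have e3 : (x.c.log.1.c : ℝ) ≤ x.c.log.1.d := by exact_mod_cast hcd
      rw [e1, abs_of_nonpos (by linarith)]
      linarith
    · have e1 : ((Nat.sub x.c.log.1.c x.c.log.1.d : ℕ) : ℝ) = x.c.log.1.c - x.c.log.1.d :=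
        Nat.cast_sub hcd
      have e2 : (0 : ℝ) ≤ ((Nat.sub x.c.log.1.d x.c.log.1.c : ℕ) : ℝ) := Nat.cast_nonneg _
      have e3 : (x.c.log.1.d : ℝ) ≤ x.c.log.1.c := by exact_mod_cast hcd
      rw [e1, abs_of_nonneg (by linarith)]
      linarith
  have hpi' : (im : ℝ) + ((x.c.log.2.1 : ℝ) + 2 * h) ≤ 3.14 * 2 ^ 40 := by
    have : ((Nat.add im (Nat.add x.c.log.2.1 (Nat.mul 2 h)) : ℕ) : ℝ) ≤ (3452466511216 : ℕ) := by
      exact_mod_cast hpi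
    simp only [cadd, cmul] at this
    push_cast at this
    refine this.trans ?_
    norm_num
  have key := log_core hK hc hw hcU hlin hρ hδ hUD hh2 hdm hL hl him hpi'
  rw [← hz] at key
  refine ⟨key.1, fun _ => ?_⟩
  have hg : dot x.log.g ε = dot (mulL x.c.inv x.g) ε := rfl
  have hcc : x.log.c = x.c.log.1 := rfl
  rw [hg, hcc]
  refine key.2.trans ?_
  have hr : (x.log.r : ℝ) =
      (x.c.log.2.1 : ℝ) + ((Nat.shiftRight (Nat.mul 2 (magL x.g)) 40 : ℕ) : ℝ) + lenL x.g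
        + (((Nat.shiftRight (Nat.mul U x.r) 40 : ℕ) : ℝ) + ((q : ℝ) + 3)) := by
    have e0 : x.log.r = Nat.add
        (Nat.add (Nat.add x.c.log.2.1 (Nat.shiftRight (Nat.mul 2 (magL x.g)) 40)) (lenL x.g))
        (Nat.add (Nat.shiftRight (Nat.mul U x.r) 40) (Nat.add q 3)) := by
      rw [hq, hh0, hD, hU]
      rfl
    rw [e0]
    simp only [cadd]
    norm_num
  have s1 := shr_le40 (Nat.mul 2 (magL x.g))
  have s2 := shr_le40 (Nat.mul U x.r)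
  have s3 := div_le_nat (Nat.mul (Nat.mul h h) (Nat.add 3298534883328 (Nat.mul 4 h)))
    7253554917687775048237056 (by norm_num)
  have hqr : (q : ℝ) = ((Nat.div (Nat.mul (Nat.mul h h)
    (Nat.add 3298534883328 (Nat.mul 4 h))) 7253554917687775048237056 : ℕ) : ℝ) + 1 := by
    rw [hq, cadd]; norm_num
  rw [← hqr] at s3
  simp only [cmul, cadd] at s1 s2 s3
  have s3' : (h : ℝ) ^ 2 * (3 * 2 ^ 40 + 4 * h) / (6 * (2 ^ 40) ^ 2) ≤ q := by
    have e0 : (h : ℝ) ^ 2 * (3 * 2 ^ 40 + 4 * h) / (6 * (2 ^ 40) ^ 2) =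
        (h : ℝ) * h * (((3298534883328 : ℕ) : ℝ) + ((4 : ℕ) : ℝ) * h) /
          ((7253554917687775048237056 : ℕ) : ℝ) := by
      push_cast
      ring
    rw [e0]; exact s3
  push_cast at s1
  rw [hr]
  refine div_le_div_of_nonneg_right ?_ hK.le
  linarith

end Pool.Agent.helper31.IA
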