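import Pool.Agent.helper31.IA.FSound

/-!
# IA-6: programs and boxes

Use: write a program `prog : List Op` and a domain box, prove `Cov nd prog box` from certificates
`verify nd prog tree box = true` (by `decide +kernel`) with `cov_of_verify` and `cov_split`, and
instantiate the universally quantified values `v` in `Asserts` one after the other.
-/

namespace Pool.Agent.helper31.IA

open Complex

/-- value at an index, `0` outside -/
def get : List ℂ → Nat → ℂ
  | [], _ => 0
  | x :: _, 0 => x
  | _ :: t, n + 1 => get t n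

/-- what a successful run proves -/
def Asserts : List Op → List ℂ → Prop
  | [], _ => True
  | Op.const z :: t, m => ∀ v, v = z.val → Asserts t (v :: m)
  | Op.add i j :: t, m => ∀ v, v = get m i + get m j → Asserts t (v :: m)
  | Op.sub i j :: t, m => ∀ v, v = get m i - get m j → Asserts t (v :: m)
  | Op.mul i j :: t, m => ∀ v, v = get m i * get m j → Asserts t (v :: m)
  | Op.scale z i :: t, m => ∀ v, v = z.val * get m i → Asserts t (v :: m)
  | Op.neg i :: t, m => ∀ v, v = -get m i → Asserts t (v :: m)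
  | Op.inv i :: t, m => get m i ≠ 0 ∧ ∀ v, v = (get m i)⁻¹ → Asserts t (v :: m)
  | Op.exp i :: t, m => ∀ v, v = Complex.exp (get m i) → Asserts t (v :: m)
  | Op.log i :: t, m => get m i ∈ slitPlane ∧ ∀ v, v = Complex.log (get m i) → Asserts t (v :: m)
  | Op.pos i :: t, m => 0 < (get m i).re ∧ Asserts t m
  | Op.lt i B :: t, m => ‖get m i‖ < (B : ℝ) / 2 ^ 40 ∧ Asserts t m

/-- membership of memories -/
def MemL (ε : List ℂ) (m : List A) (v : List ℂ) : Prop := List.Forall₂ (Mem ε) m v

/-- outside of the list the model is invalid -/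
theorem MemL.nth {ε : List ℂ} {m : List A} {v : List ℂ} (h : MemL ε m v) (i : Nat) :
    Mem ε (nth m i) (get v i) := by
  unfold MemL at h
  induction h generalizing i with
  | nil =>
    intro hok
    simp [IA.nth] at hok
  | cons hxy _ ih =>
    cases i with
    | zero => exact hxy
    | succ n => exact ih n

/-- the first `nr` noise symbols are real -/
def RealL (nr : Nat) (ε : List ℂ) : Prop := ∀ i, i < nr → (get ε i).im = 0

private theorem r_small_tail {e : ℂ} {es : List ℂ} (h : Small (e :: es)) : Small es :=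
  fun z hz => h z (List.mem_cons_of_mem _ hz)

private theorem r_real_tail {n : Nat} {e : ℂ} {es : List ℂ} (h : RealL (n + 1) (e :: es)) :
    RealL n es := fun i hi => h (i + 1) (by omega)

private theorem r_abs_sub (a b : Nat) :
    |(a : ℝ) - b| = ((Nat.add (Nat.sub a b) (Nat.sub b a) : Nat) : ℝ) := by
  show |(a : ℝ) - b| = ((a - b + (b - a) : Nat) : ℝ)
  rcases le_total a b with h | h
  · rw [Nat.sub_eq_zero_of_le h, zero_add, Nat.cast_sub h, abs_sub_comm, abs_of_nonneg]
    have : (a : ℝ) ≤ b := by exact_mod_cast h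
    linarith
  · rw [Nat.sub_eq_zero_of_le h, add_zero, Nat.cast_sub h, abs_of_nonneg]
    have : (b : ℝ) ≤ a := by exact_mod_cast h
    linarith

private theorem r_re_dot : ∀ (g : List Z) (nr : Nat) (ε : List ℂ), Small ε → RealL nr ε →
    |(dot g ε).re| ≤ (reL nr g : ℝ) / 2 ^ 40
  | [], nr, ε, _, _ => by
    simp [dot, reL]
  | _ :: _, nr, [], _, _ => by
    simp only [dot, zero_re, abs_zero]
    positivity
  | g :: gs, 0, e :: es, hs, hr => by
    have h1 := r_re_dot gs 0 es (r_small_tail hs) (fun i hi => absurd hi (Nat.not_lt_zero i))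
    have h2 : ‖e‖ ≤ 1 := hs e List.mem_cons_self
    have h3 : |(g.val * e).re| ≤ (g.mag : ℝ) / 2 ^ 40 := by
      calc |(g.val * e).re| ≤ ‖g.val * e‖ := Complex.abs_re_le_norm _
        _ = ‖g.val‖ * ‖e‖ := norm_mul _ _
        _ ≤ ‖g.val‖ * 1 := mul_le_mul_of_nonneg_left h2 (norm_nonneg _)
        _ = ‖g.val‖ := mul_one _
        _ ≤ (g.mag : ℝ) / 2 ^ 40 := g.norm_le_mag
    have h4 : ((reL 0 (g :: gs) : Nat) : ℝ) = (g.mag : ℝ) + (reL 0 gs : ℝ) := by
      show ((g.mag + reL 0 gs : Nat) : ℝ) = _
      push_cast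
      ring
    rw [h4, add_div]
    show |(g.val * e + dot gs es).re| ≤ _
    rw [add_re]
    exact (abs_add_le _ _).trans (add_le_add h3 h1)
  | g :: gs, n + 1, e :: es, hs, hr => by
    have h1 := r_re_dot gs n es (r_small_tail hs) (r_real_tail hr)
    have h2 : ‖e‖ ≤ 1 := hs e List.mem_cons_self
    have he : e.im = 0 := hr 0 (Nat.succ_pos n)
    have h5 : |e.re| ≤ 1 := (Complex.abs_re_le_norm e).trans h2
    have h3 : |(g.val * e).re| ≤
        ((Nat.add (Nat.sub g.a g.b) (Nat.sub g.b g.a) : Nat) : ℝ) / 2 ^ 40 := by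
      rw [mul_re, he, mul_zero, sub_zero, abs_mul, Z.re_val, abs_div, r_abs_sub,
        abs_of_pos (by positivity : (0 : ℝ) < 2 ^ 40)]
      exact mul_le_of_le_one_right (by positivity) h5
    have h4 : ((reL (n + 1) (g :: gs) : Nat) : ℝ) =
        ((Nat.add (Nat.sub g.a g.b) (Nat.sub g.b g.a) : Nat) : ℝ) + (reL n gs : ℝ) := by
      show (((Nat.add (Nat.sub g.a g.b) (Nat.sub g.b g.a)) + reL n gs : Nat) : ℝ) = _
      push_cast
      ring
    rw [h4, add_div]
    show |(g.val * e + dot gs es).re| ≤ _
    rw [add_re]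
    exact (abs_add_le _ _).trans (add_le_add h3 h1)

/-- `|Re (g ε)| ≤ |Re g|` for real `ε` -/
theorem isPos_sound {nr : Nat} {ε : List ℂ} (hε : Small ε) (hr : RealL nr ε) {x : A} {u : ℂ}
    (hx : Mem ε x u) (h : x.isPos nr = true) : 0 < u.re := by
  unfold A.isPos at h
  rw [Bool.and_eq_true] at h
  obtain ⟨hok, hb⟩ := h
  have hle : x.c.b + reL nr x.g + (x.r + 1) ≤ x.c.a := Nat.le_of_ble_eq_true hb
  have hle' : (x.c.b : ℝ) + reL nr x.g + (x.r + 1) ≤ x.c.a := by exact_mod_cast hle
  have h1 := hx hok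
  have h2 := (Complex.abs_re_le_norm _).trans h1
  have h3 := r_re_dot x.g nr ε hε hr
  rw [sub_re, add_re, Z.re_val] at h2
  have h4 := (abs_le.1 h2).1
  have h5 := (abs_le.1 h3).1
  have h6 : ((x.c.b : ℝ) + reL nr x.g + (x.r + 1)) / 2 ^ 40 ≤ (x.c.a : ℝ) / 2 ^ 40 :=
    div_le_div_of_nonneg_right hle' (by positivity)
  rw [add_div, add_div, add_div] at h6
  have h7 : (0 : ℝ) < 1 / 2 ^ 40 := by positivity
  rw [sub_div] at h4
  linarith

theorem isLt_sound {ε : List ℂ} (hε : Small ε) {x : A} {u : ℂ} (hx : Mem ε x u) {B : Nat}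
    (h : x.isLt B = true) : ‖u‖ < (B : ℝ) / 2 ^ 40 := by
  unfold A.isLt at h
  simp only [Bool.and_eq_true] at h
  obtain ⟨⟨hok, hb⟩, hn⟩ := h
  have hb' : magL x.g + x.r + 1 ≤ B := Nat.le_of_ble_eq_true hb
  have hn' : x.c.nsq + 1 ≤ (B - (magL x.g + x.r)) * (B - (magL x.g + x.r)) :=
    Nat.le_of_ble_eq_true hn
  obtain ⟨ρ, hu, -, -, hD⟩ := Mem.split hε hx hok
  have hDB : magL x.g + x.r ≤ B := by omega
  obtain ⟨E, hE⟩ : ∃ E : Nat, E = B - (magL x.g + x.r) := ⟨_, rfl⟩
  rw [← hE] at hn'
  have hEB : B = E + (magL x.g + x.r) := by omega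
  have h1 : (x.c.nsq : ℝ) + 1 ≤ (E : ℝ) * E := by exact_mod_cast hn'
  rw [Z.nsq_eq] at h1
  have h2 : ‖x.c.val‖ < (E : ℝ) / 2 ^ 40 := by
    rw [lt_div_iff₀ (by positivity)]
    apply lt_of_pow_lt_pow_left₀ 2 (Nat.cast_nonneg E)
    rw [mul_pow, ← pow_mul]
    norm_num at h1 ⊢
    nlinarith
  have h3 : ((Nat.add (magL x.g) x.r : Nat) : ℝ) = (magL x.g : ℝ) + x.r := by
    show ((magL x.g + x.r : Nat) : ℝ) = _
    push_cast
    ring
  rw [h3] at hD
  have h4 : (B : ℝ) = E + ((magL x.g : ℝ) + x.r) := by
    rw [hEB]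
    push_cast
    ring
  rw [h4, add_div, hu]
  exact (norm_add_le _ _).trans_lt (add_lt_add_of_lt_of_le h2 hD)

private theorem r_chk_ok {x : A} (h : x.chk = true) : x.ok = true := by
  unfold A.chk at h
  rw [Bool.and_eq_true] at h
  exact h.1

/-- **Soundness of a run.** -/
theorem run_sound {nr : Nat} {ε : List ℂ} (hε : Small ε) (hr : RealL nr ε) :
    ∀ (ops : List Op) (m : List A) (v : List ℂ), MemL ε m v → run nr ops m = true →
      Asserts ops v := by
  intro ops
  induction ops with
  | nil =>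
    intro m v _ _
    trivial
  | cons op t ih =>
    intro m v hm h
    cases op with
    | const z =>
      intro w hw
      subst hw
      exact ih _ _ (List.Forall₂.cons (Mem.const ε z) hm) h
    | add i j =>
      intro w hw
      subst hw
      have h' := (Bool.and_eq_true _ _).mp h
      exact ih _ _ (List.Forall₂.cons (Mem.add (hm.nth i) (hm.nth j)) hm) h'.2
    | sub i j =>
      intro w hw
      subst hw
      have h' := (Bool.and_eq_true _ _).mp h
      exact ih _ _ (List.Forall₂.cons (Mem.sub (hm.nth i) (hm.nth j)) hm) h'.2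
    | mul i j =>
      intro w hw
      subst hw
      have h' := (Bool.and_eq_true _ _).mp h
      exact ih _ _ (List.Forall₂.cons (Mem.mul hε (hm.nth i) (hm.nth j)) hm) h'.2
    | scale z i =>
      intro w hw
      subst hw
      have h' := (Bool.and_eq_true _ _).mp h
      exact ih _ _ (List.Forall₂.cons (Mem.scale hε z (hm.nth i)) hm) h'.2
    | neg i =>
      intro w hw
      subst hw
      have h' := (Bool.and_eq_true _ _).mp h
      exact ih _ _ (List.Forall₂.cons (Mem.neg (hm.nth i)) hm) h'.2
    | inv i =>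
      have h' := (Bool.and_eq_true _ _).mp h
      have h1 := Mem.inv hε (hm.nth i) (r_chk_ok h'.1)
      refine ⟨h1.1, ?_⟩
      intro w hw
      subst hw
      exact ih _ _ (List.Forall₂.cons h1.2 hm) h'.2
    | exp i =>
      intro w hw
      subst hw
      have h' := (Bool.and_eq_true _ _).mp h
      exact ih _ _ (List.Forall₂.cons (Mem.exp hε (hm.nth i)) hm) h'.2
    | log i =>
      have h' := (Bool.and_eq_true _ _).mp h
      have h1 := Mem.log hε (hm.nth i) (r_chk_ok h'.1)
      refine ⟨h1.1, ?_⟩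
      intro w hw
      subst hw
      exact ih _ _ (List.Forall₂.cons h1.2 hm) h'.2
    | pos i =>
      have h' := (Bool.and_eq_true _ _).mp h
      exact ⟨isPos_sound hε hr (hm.nth i) h'.1, ih _ _ hm h'.2⟩
    | lt i B =>
      have h' := (Bool.and_eq_true _ _).mp h
      exact ⟨isLt_sound hε (hm.nth i) h'.1, ih _ _ hm h'.2⟩

/-- the real point `u` is in the box (centres and half widths in units `2^(-40)`) -/
def InBox (box : List (Nat × Nat)) (u : List ℝ) : Prop :=
  List.Forall₂ (fun b t => |t - (b.1 : ℝ) / 2 ^ 40| ≤ (b.2 : ℝ) / 2 ^ 40) box u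

/-- The assertions of `ops` hold for all real points of the box and all `nd` complex numbers of
the closed unit disc. -/
def Cov (nd : Nat) (ops : List Op) (box : List (Nat × Nat)) : Prop :=
  ∀ (u : List ℝ) (x : List ℂ), InBox box u → x.length = nd → (∀ z ∈ x, ‖z‖ ≤ 1) →
    Asserts ops (u.map (fun t : ℝ => (t : ℂ)) ++ x)

/-- the noise symbols of a point of a box -/
private noncomputable def noise : List (Nat × Nat) → List ℝ → List ℂ
  | [], _ => []
  | _ :: _, [] => []
  | b :: bs, t :: ts =>
      (((t - (b.1 : ℝ) / 2 ^ 40) / ((b.2 : ℝ) / 2 ^ 40) : ℝ) : ℂ) :: noise bs ts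

private theorem r_noise_eq {b : Nat × Nat} {t : ℝ}
    (h : |t - (b.1 : ℝ) / 2 ^ 40| ≤ (b.2 : ℝ) / 2 ^ 40) :
    t = (b.1 : ℝ) / 2 ^ 40 + (b.2 : ℝ) / 2 ^ 40 *
      ((t - (b.1 : ℝ) / 2 ^ 40) / ((b.2 : ℝ) / 2 ^ 40)) := by
  rcases eq_or_ne ((b.2 : ℝ) / 2 ^ 40) 0 with h0 | h0
  · rw [h0] at h ⊢
    have := abs_nonpos_iff.1 h
    rw [zero_mul, add_zero]
    linarith
  · rw [mul_div_cancel₀ _ h0]
    ring

private theorem r_noise_le {b : Nat × Nat} {t : ℝ}
    (h : |t - (b.1 : ℝ) / 2 ^ 40| ≤ (b.2 : ℝ) / 2 ^ 40) :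
    ‖(((t - (b.1 : ℝ) / 2 ^ 40) / ((b.2 : ℝ) / 2 ^ 40) : ℝ) : ℂ)‖ ≤ 1 := by
  rw [Complex.norm_real, Real.norm_eq_abs, abs_div,
    abs_of_nonneg (by positivity : (0 : ℝ) ≤ (b.2 : ℝ) / 2 ^ 40)]
  exact div_le_one_of_le₀ h (by positivity)

private theorem r_noise_small {box : List (Nat × Nat)} {u : List ℝ} (h : InBox box u) :
    Small (noise box u) := by
  unfold InBox at h
  induction h with
  | nil =>
    intro z hz
    simp [noise] at hz
  | cons hbt _ ih =>
    intro z hz
    simp only [noise, List.mem_cons] at hz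
    rcases hz with rfl | hz
    · exact r_noise_le hbt
    · exact ih z hz

private theorem r_noise_real {box : List (Nat × Nat)} {u : List ℝ} (h : InBox box u)
    (x : List ℂ) : RealL box.length (noise box u ++ x) := by
  unfold InBox at h
  induction h with
  | nil =>
    intro i hi
    exact absurd hi (Nat.not_lt_zero i)
  | cons hbt _ ih =>
    intro i hi
    cases i with
    | zero =>
      simp only [noise, List.cons_append, get]
      exact ofReal_im _
    | succ n =>
      simp only [noise, List.cons_append, get]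
      exact ih n (by simpa using hi)

private theorem r_dot_unitL (h : Nat) : ∀ (j : Nat) (ε : List ℂ),
    dot (unitL j h) ε = (((h : ℝ) / 2 ^ 40 : ℝ) : ℂ) * get ε j
  | 0, [] => by simp [unitL, dot, get]
  | 0, e :: es => by
    simp only [unitL, dot, get, add_zero]
    congr 1
    simp [Z.val]
  | j + 1, [] => by simp [unitL, dot, get]
  | j + 1, e :: es => by
    simp only [unitL, dot, get, Z.val_zero, zero_mul, zero_add]
    exact r_dot_unitL h j es

private theorem r_get_append (pre : List ℂ) (e : ℂ) (rest : List ℂ) :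
    get (pre ++ e :: rest) pre.length = e := by
  induction pre with
  | nil => rfl
  | cons a l ih => exact ih

private theorem r_models_disc : ∀ (x pre : List ℂ),
    MemL (pre ++ x) (discs x.length pre.length) x
  | [], pre => List.Forall₂.nil
  | e :: es, pre => by
    have ih := r_models_disc es (pre ++ [e])
    rw [List.append_assoc, List.singleton_append, List.length_append, List.length_singleton] at ih
    refine List.Forall₂.cons ?_ ih
    intro _
    rw [r_dot_unitL, r_get_append, Z.val_zero]
    have : (((1099511627776 : Nat) : ℝ) / 2 ^ 40 : ℝ) = 1 := by norm_num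
    rw [this]
    simp

private theorem r_models (x : List ℂ) {box : List (Nat × Nat)} {u : List ℝ} (h : InBox box u) :
    ∀ pre : List ℂ, MemL (pre ++ (noise box u ++ x)) (models box pre.length x.length)
      (u.map (fun t : ℝ => (t : ℂ)) ++ x) := by
  unfold InBox at h
  induction h with
  | nil =>
    intro pre
    exact r_models_disc x pre
  | @cons b t bs ts hbt _ ih =>
    intro pre
    have ih' := ih (pre ++ [(((t - (b.1 : ℝ) / 2 ^ 40) / ((b.2 : ℝ) / 2 ^ 40) : ℝ) : ℂ)])
    rw [List.append_assoc, List.singleton_append, List.length_append, List.length_singleton] at ih'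
    refine List.Forall₂.cons ?_ ih'
    intro _
    show ‖(t : ℂ) - ((⟨b.1, 0, 0, 0⟩ : Z).val + dot (unitL pre.length b.2) _)‖ ≤ _
    rw [r_dot_unitL]
    simp only [noise, List.cons_append]
    rw [r_get_append]
    have h1 : (⟨b.1, 0, 0, 0⟩ : Z).val = (((b.1 : ℝ) / 2 ^ 40 : ℝ) : ℂ) := by simp [Z.val]
    rw [h1, ← ofReal_mul, ← ofReal_add, ← r_noise_eq hbt, sub_self, norm_zero]
    positivity

/-- One box: noise symbols `ε = (u - c)/h` (`0` if `h = 0`) for the reals, then `x`. -/
theorem cov_of_run {nd : Nat} {ops : List Op} {box : List (Nat × Nat)}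
    (h : run box.length ops (models box 0 nd) = true) : Cov nd ops box := by
  intro u x hu hx hs
  subst hx
  have h1 := r_models x hu []
  rw [List.nil_append, List.length_nil] at h1
  refine run_sound ?_ (r_noise_real hu x) ops _ _ h1 h
  intro z hz
  rcases List.mem_append.1 hz with hz | hz
  · exact r_noise_small hu z hz
  · exact hs z hz

private theorem r_split {box : List (Nat × Nat)} {u : List ℝ} (h : InBox box u) :
    ∀ i, canSplit i box = true → InBox (lo i box) u ∨ InBox (hi i box) u := by
  unfold InBox at h ⊢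
  induction h with
  | nil =>
    intro i hi
    cases i <;> simp [canSplit] at hi
  | @cons b t bs ts hbt hrest ih =>
    intro i hi
    cases i with
    | zero =>
      obtain ⟨c, h⟩ := b
      simp only [canSplit, Bool.and_eq_true] at hi
      obtain ⟨h1, h2⟩ := hi
      have h1' : 2 * (h / 2) = h := Nat.eq_of_beq_eq_true h1
      have h2' : h ≤ c := Nat.le_of_ble_eq_true h2
      obtain ⟨k, hk⟩ : ∃ k, k = h / 2 := ⟨_, rfl⟩
      have hlo : lo 0 ((c, h) :: bs) = (c - k, k) :: bs := by rw [hk]; rfl
      have hhi : hi 0 ((c, h) :: bs) = (c + k, k) :: bs := by rw [hk]; rfl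
      rw [hlo, hhi]
      rw [← hk] at h1'
      have hkc : k ≤ c := by omega
      have e1 : (h : ℝ) = 2 * k := by exact_mod_cast h1'.symm
      simp only at hbt
      rw [e1] at hbt
      have h3 := abs_le.1 hbt
      have e2 : (2 * (k : ℝ)) / 2 ^ 40 = 2 * ((k : ℝ) / 2 ^ 40) := by ring
      rw [e2] at h3
      rcases le_total t ((c : ℝ) / 2 ^ 40) with h4 | h4
      · left
        refine List.Forall₂.cons ?_ hrest
        simp only
        rw [Nat.cast_sub hkc, sub_div, abs_le]
        constructor <;> linarith [h3.1, h3.2]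
      · right
        refine List.Forall₂.cons ?_ hrest
        simp only
        rw [Nat.cast_add, add_div, abs_le]
        constructor <;> linarith [h3.1, h3.2]
    | succ n =>
      have hi' : canSplit n bs = true := hi
      rcases ih n hi' with h1 | h1
      · left
        exact List.Forall₂.cons hbt h1
      · right
        exact List.Forall₂.cons hbt h1

/-- Splitting: `c - k`, `c + k` with `h = 2k ≤ c`. -/
theorem cov_split {nd : Nat} {ops : List Op} {box : List (Nat × Nat)} (i : Nat)
    (hs : canSplit i box = true) (h1 : Cov nd ops (lo i box)) (h2 : Cov nd ops (hi i box)) :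
    Cov nd ops box := by
  intro u x hu hx hx1
  rcases r_split hu i hs with h | h
  · exact h1 u x h hx hx1
  · exact h2 u x h hx hx1

theorem cov_of_verify {nd : Nat} {ops : List Op} : ∀ (t : T) (box : List (Nat × Nat)),
    verify nd ops t box = true → Cov nd ops box := by
  intro t
  induction t with
  | l =>
    intro box h
    exact cov_of_run h
  | n i a b iha ihb =>
    intro box h
    simp only [verify, Bool.and_eq_true] at h
    exact cov_split i h.1.1 (iha _ h.1.2) (ihb _ h.2)

/-- programs can be checked in parts with the same box -/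
theorem Cov.mono {nd : Nat} {ops : List Op} {box : List (Nat × Nat)} (h : Cov nd ops box)
    {u : List ℝ} {x : List ℂ} (hu : InBox box u) (hx : x.length = nd) (h1 : ∀ z ∈ x, ‖z‖ ≤ 1) :
    Asserts ops (u.map (fun t : ℝ => (t : ℂ)) ++ x) := h u x hu hx h1

end Pool.Agent.helper31.IA
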