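import Pool.Agent.helper31.IA.ZSound

/-!
# IA-4: affine models, ring operations

`Small ε`: all noise symbols are in the closed unit disc.  `dot g ε = Σ g i * ε i`.
-/

namespace Pool.Agent.helper31.IA

open Complex

def Small (ε : List ℂ) : Prop := ∀ z ∈ ε, ‖z‖ ≤ 1

/-- `N / 2^40 ≤ (N >>> 40) + 1` -/
private theorem shr40 (N : Nat) : (N : ℝ) / 2 ^ 40 ≤ ((Nat.shiftRight N 40 : Nat) : ℝ) + 1 := by
  have h1 : Nat.shiftRight N 40 = N / 2 ^ 40 := Nat.shiftRight_eq_div_pow N 40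
  rw [h1, div_le_iff₀ (by positivity)]
  have h2 : N < (N / 2 ^ 40 + 1) * 2 ^ 40 := by
    have := Nat.div_add_mod N (2 ^ 40)
    have h3 : N % 2 ^ 40 < 2 ^ 40 := Nat.mod_lt _ (by positivity)
    nlinarith
  have h4 : (N : ℝ) < ((N / 2 ^ 40 + 1) * 2 ^ 40 : ℕ) := by exact_mod_cast h2
  push_cast at h4
  push_cast
  linarith

theorem dot_addL (g h : List Z) (ε : List ℂ) : dot (addL g h) ε = dot g ε + dot h ε := by
  induction g generalizing h ε with
  | nil => simp [addL, dot]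
  | cons x xs ih =>
    cases h with
    | nil => simp [addL, dot]
    | cons y ys =>
      cases ε with
      | nil => simp [addL, dot]
      | cons e es =>
        simp only [addL, dot, ih, Z.val_add]
        ring

theorem dot_negL (g : List Z) (ε : List ℂ) : dot (negL g) ε = -dot g ε := by
  induction g generalizing ε with
  | nil => simp [negL, dot]
  | cons x xs ih =>
    cases ε with
    | nil => simp [negL, dot]
    | cons e es =>
      simp only [negL, dot, ih, Z.val_neg]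
      ring

/-- each entry is rounded by at most `2` units, `lenL` is twice the length -/
theorem dot_mulL (z : Z) (g : List Z) {ε : List ℂ} (hε : Small ε) :
    ‖dot (mulL z g) ε - z.val * dot g ε‖ ≤ (lenL g : ℝ) / 2 ^ 40 := by
  induction g generalizing ε with
  | nil => simp [mulL, dot, lenL]
  | cons x xs ih =>
    cases ε with
    | nil =>
      simp only [mulL, dot, mul_zero, sub_zero, norm_zero]
      positivity
    | cons e es =>
      have he : ‖e‖ ≤ 1 := hε e (by simp)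
      have hes : Small es := fun w hw => hε w (by simp [hw])
      have h1 := ih hes
      have h2 := Z.val_mul z x
      have h3 : dot (mulL z (x :: xs)) (e :: es) - z.val * dot (x :: xs) (e :: es) =
          ((z.mul x).val - z.val * x.val) * e + (dot (mulL z xs) es - z.val * dot xs es) := by
        simp only [mulL, dot]
        ring
      have h4 : ((lenL (x :: xs) : Nat) : ℝ) = (lenL xs : ℝ) + 2 := by
        have : lenL (x :: xs) = lenL xs + 2 := rfl
        rw [this]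
        push_cast
        ring
      rw [h3, h4, add_div, add_comm ((lenL xs : ℝ) / 2 ^ 40)]
      refine (norm_add_le _ _).trans (add_le_add ?_ h1)
      rw [norm_mul]
      calc ‖(z.mul x).val - z.val * x.val‖ * ‖e‖ ≤ (2 / 2 ^ 40) * 1 :=
            mul_le_mul h2 he (norm_nonneg _) (by positivity)
        _ = 2 / 2 ^ 40 := mul_one _

theorem norm_dot_le (g : List Z) {ε : List ℂ} (hε : Small ε) :
    ‖dot g ε‖ ≤ (magL g : ℝ) / 2 ^ 40 := by
  induction g generalizing ε with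
  | nil => simp [dot, magL]
  | cons x xs ih =>
    cases ε with
    | nil =>
      simp only [dot, norm_zero]
      positivity
    | cons e es =>
      have he : ‖e‖ ≤ 1 := hε e (by simp)
      have hes : Small es := fun w hw => hε w (by simp [hw])
      have h1 := ih hes
      have h2 := Z.norm_le_mag x
      have h4 : ((magL (x :: xs) : Nat) : ℝ) = (x.mag : ℝ) + (magL xs : ℝ) := by
        have : magL (x :: xs) = x.mag + magL xs := rfl
        rw [this]
        push_cast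
        ring
      rw [h4, add_div]
      simp only [dot]
      refine (norm_add_le _ _).trans (add_le_add ?_ h1)
      rw [norm_mul]
      calc ‖x.val‖ * ‖e‖ ≤ ((x.mag : ℝ) / 2 ^ 40) * 1 :=
            mul_le_mul h2 he (norm_nonneg _) (by positivity)
        _ = (x.mag : ℝ) / 2 ^ 40 := mul_one _

/-- If `z` is in the model `x`, then `z = c + δ` with `δ = lin + ρ`, `‖ρ‖ ≤ r`, `‖lin‖ ≤ G`. -/
theorem Mem.split {ε : List ℂ} (hε : Small ε) {x : A} {z : ℂ} (h : Mem ε x z) (hok : x.ok = true) :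
    ∃ ρ : ℂ, z = x.c.val + (dot x.g ε + ρ) ∧ ‖ρ‖ ≤ (x.r : ℝ) / 2 ^ 40 ∧
      ‖dot x.g ε‖ ≤ (magL x.g : ℝ) / 2 ^ 40 ∧
      ‖dot x.g ε + ρ‖ ≤ ((Nat.add (magL x.g) x.r : Nat) : ℝ) / 2 ^ 40 := by
  have h1 := h hok
  have h2 := norm_dot_le x.g hε
  refine ⟨z - (x.c.val + dot x.g ε), by ring, h1, h2, ?_⟩
  have h3 : ((Nat.add (magL x.g) x.r : Nat) : ℝ) = (magL x.g : ℝ) + (x.r : ℝ) := by
    have : Nat.add (magL x.g) x.r = magL x.g + x.r := rfl
    rw [this]
    push_cast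
    ring
  rw [h3, add_div]
  exact (norm_add_le _ _).trans (add_le_add h2 h1)

theorem Mem.const (ε : List ℂ) (z : Z) : Mem ε (A.const z) z.val := by
  intro _
  simp [A.const, dot]

theorem Mem.add {ε : List ℂ} {x y : A} {u v : ℂ} (hx : Mem ε x u) (hy : Mem ε y v) :
    Mem ε (x.add y) (u + v) := by
  intro hok
  have hok' : x.ok = true ∧ y.ok = true := by
    simpa [A.add] using hok
  have h1 := hx hok'.1
  have h2 := hy hok'.2
  have e1 : (x.add y).c = x.c.add y.c := rfl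
  have e2 : (x.add y).g = addL x.g y.g := rfl
  have e3 : (x.add y).r = x.r + y.r := rfl
  rw [e1, e2, e3, Z.val_add, dot_addL]
  have h3 : u + v - (x.c.val + y.c.val + (dot x.g ε + dot y.g ε)) =
      (u - (x.c.val + dot x.g ε)) + (v - (y.c.val + dot y.g ε)) := by ring
  rw [h3]
  push_cast
  rw [add_div]
  exact (norm_add_le _ _).trans (add_le_add h1 h2)

theorem Mem.neg {ε : List ℂ} {x : A} {u : ℂ} (hx : Mem ε x u) : Mem ε x.neg (-u) := by
  intro hok
  have h1 := hx hok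
  have e1 : x.neg.c = x.c.neg := rfl
  have e2 : x.neg.g = negL x.g := rfl
  have e3 : x.neg.r = x.r := rfl
  rw [e1, e2, e3, Z.val_neg, dot_negL]
  have h3 : -u - (-x.c.val + -dot x.g ε) = -(u - (x.c.val + dot x.g ε)) := by ring
  rw [h3, norm_neg]
  exact h1

theorem Mem.sub {ε : List ℂ} {x y : A} {u v : ℂ} (hx : Mem ε x u) (hy : Mem ε y v) :
    Mem ε (x.sub y) (u - v) := by
  intro hok
  have hok' : x.ok = true ∧ y.ok = true := by
    simpa [A.sub] using hok
  have h1 := hx hok'.1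
  have h2 := hy hok'.2
  have e1 : (x.sub y).c = x.c.sub y.c := rfl
  have e2 : (x.sub y).g = addL x.g (negL y.g) := rfl
  have e3 : (x.sub y).r = x.r + y.r := rfl
  rw [e1, e2, e3, Z.val_sub, dot_addL, dot_negL]
  have h3 : u - v - (x.c.val - y.c.val + (dot x.g ε + -dot y.g ε)) =
      (u - (x.c.val + dot x.g ε)) - (v - (y.c.val + dot y.g ε)) := by ring
  rw [h3]
  push_cast
  rw [add_div]
  exact (norm_sub_le _ _).trans (add_le_add h1 h2)

/-- `(c₁ + δ₁)(c₂ + δ₂) = c₁c₂ + c₁ lin₂ + c₂ lin₁ + (c₁ρ₂ + c₂ρ₁ + δ₁δ₂)` -/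
theorem Mem.mul {ε : List ℂ} (hε : Small ε) {x y : A} {u v : ℂ} (hx : Mem ε x u)
    (hy : Mem ε y v) : Mem ε (x.mul y) (u * v) := by
  intro hok
  have hok' : x.ok = true ∧ y.ok = true := by
    simpa [A.mul] using hok
  obtain ⟨ρ, hu, hρ, hl, hδ⟩ := hx.split hε hok'.1
  obtain ⟨σ, hv, hσ, hm, hη⟩ := hy.split hε hok'.2
  have e1 : (x.mul y).c = x.c.mul y.c := rfl
  have e2 : (x.mul y).g = addL (mulL y.c x.g) (mulL x.c y.g) := rfl
  have e3 : (x.mul y).r = Nat.shiftRight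
      (x.c.mg * y.r + y.c.mg * x.r + (magL x.g + x.r) * (magL y.g + y.r)) 40 +
      (lenL x.g + lenL y.g + 3) := rfl
  rw [e1, e2, e3, dot_addL]
  have d1 := dot_mulL y.c x.g hε
  have d2 := dot_mulL x.c y.g hε
  have d3 := Z.val_mul x.c y.c
  have c1 := Z.norm_le_mg x.c
  have c2 := Z.norm_le_mg y.c
  have key : u * v - ((x.c.mul y.c).val + (dot (mulL y.c x.g) ε + dot (mulL x.c y.g) ε)) =
      -((x.c.mul y.c).val - x.c.val * y.c.val) +
      (-(dot (mulL y.c x.g) ε - y.c.val * dot x.g ε) +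
      (-(dot (mulL x.c y.g) ε - x.c.val * dot y.g ε) +
      (x.c.val * σ + (y.c.val * ρ + (dot x.g ε + ρ) * (dot y.g ε + σ))))) := by
    rw [hu, hv]
    ring
  have n1 : ‖x.c.val * σ‖ ≤ ((x.c.mg : ℝ) / 2 ^ 40) * ((y.r : ℝ) / 2 ^ 40) := by
    rw [norm_mul]
    exact mul_le_mul c1 hσ (norm_nonneg _) (by positivity)
  have n2 : ‖y.c.val * ρ‖ ≤ ((y.c.mg : ℝ) / 2 ^ 40) * ((x.r : ℝ) / 2 ^ 40) := by
    rw [norm_mul]
    exact mul_le_mul c2 hρ (norm_nonneg _) (by positivity)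
  have n3 : ‖(dot x.g ε + ρ) * (dot y.g ε + σ)‖ ≤
      (((magL x.g : ℝ) + x.r) / 2 ^ 40) * (((magL y.g : ℝ) + y.r) / 2 ^ 40) := by
    rw [norm_mul]
    have h1 : ‖dot x.g ε + ρ‖ ≤ ((magL x.g : ℝ) + x.r) / 2 ^ 40 := by
      have h : ((Nat.add (magL x.g) x.r : Nat) : ℝ) = (magL x.g : ℝ) + x.r := by
        have : Nat.add (magL x.g) x.r = magL x.g + x.r := rfl
        rw [this]
        push_cast
        ring
      rw [h] at hδ
      exact hδ
    have h2 : ‖dot y.g ε + σ‖ ≤ ((magL y.g : ℝ) + y.r) / 2 ^ 40 := by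
      have h : ((Nat.add (magL y.g) y.r : Nat) : ℝ) = (magL y.g : ℝ) + y.r := by
        have : Nat.add (magL y.g) y.r = magL y.g + y.r := rfl
        rw [this]
        push_cast
        ring
      rw [h] at hη
      exact hη
    exact mul_le_mul h1 h2 (norm_nonneg _) (by positivity)
  have s1 := shr40 (x.c.mg * y.r + y.c.mg * x.r + (magL x.g + x.r) * (magL y.g + y.r))
  set S : ℝ := ((Nat.shiftRight
      (x.c.mg * y.r + y.c.mg * x.r + (magL x.g + x.r) * (magL y.g + y.r)) 40 : Nat) : ℝ) with hS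
  have s2 : ((x.c.mg : ℝ) / 2 ^ 40) * ((y.r : ℝ) / 2 ^ 40) +
      (((y.c.mg : ℝ) / 2 ^ 40) * ((x.r : ℝ) / 2 ^ 40) +
      (((magL x.g : ℝ) + x.r) / 2 ^ 40) * (((magL y.g : ℝ) + y.r) / 2 ^ 40)) ≤
      (S + 1) / 2 ^ 40 := by
    have h : ((x.c.mg : ℝ) / 2 ^ 40) * ((y.r : ℝ) / 2 ^ 40) +
      (((y.c.mg : ℝ) / 2 ^ 40) * ((x.r : ℝ) / 2 ^ 40) +
      (((magL x.g : ℝ) + x.r) / 2 ^ 40) * (((magL y.g : ℝ) + y.r) / 2 ^ 40)) =
      (((x.c.mg * y.r + y.c.mg * x.r + (magL x.g + x.r) * (magL y.g + y.r) : ℕ) : ℝ) / 2 ^ 40)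
        / 2 ^ 40 := by
      push_cast
      ring
    rw [h]
    exact div_le_div_of_nonneg_right s1 (by positivity)
  rw [key]
  have t1 : ‖-((x.c.mul y.c).val - x.c.val * y.c.val)‖ ≤ 2 / 2 ^ 40 := by rw [norm_neg]; exact d3
  have t2 : ‖-(dot (mulL y.c x.g) ε - y.c.val * dot x.g ε)‖ ≤ (lenL x.g : ℝ) / 2 ^ 40 := by
    rw [norm_neg]; exact d1
  have t3 : ‖-(dot (mulL x.c y.g) ε - x.c.val * dot y.g ε)‖ ≤ (lenL y.g : ℝ) / 2 ^ 40 := by
    rw [norm_neg]; exact d2
  refine (norm_add_le _ _).trans ?_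
  refine (add_le_add_right (norm_add_le _ _) _).trans ?_
  refine (add_le_add_right (add_le_add_right (norm_add_le _ _) _) _).trans ?_
  refine (add_le_add_right (add_le_add_right (add_le_add_right (norm_add_le _ _) _) _) _).trans ?_
  refine (add_le_add_right (add_le_add_right (add_le_add_right
    (add_le_add_right (norm_add_le _ _) _) _) _) _).trans ?_
  have fin : ((Nat.shiftRight
      (x.c.mg * y.r + y.c.mg * x.r + (magL x.g + x.r) * (magL y.g + y.r)) 40 +
      (lenL x.g + lenL y.g + 3) : Nat) : ℝ) / 2 ^ 40 =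
      2 / 2 ^ 40 + ((lenL x.g : ℝ) / 2 ^ 40 + ((lenL y.g : ℝ) / 2 ^ 40 + (S + 1) / 2 ^ 40)) := by
    rw [hS]
    push_cast
    ring
  rw [fin]
  linarith

theorem Mem.scale {ε : List ℂ} (hε : Small ε) (z : Z) {x : A} {u : ℂ} (hx : Mem ε x u) :
    Mem ε (x.scale z) (z.val * u) := by
  intro hok
  have hok' : x.ok = true := hok
  obtain ⟨ρ, hu, hρ, hl, hδ⟩ := hx.split hε hok'
  have e1 : (x.scale z).c = z.mul x.c := rfl
  have e2 : (x.scale z).g = mulL z x.g := rfl
  have e3 : (x.scale z).r = Nat.shiftRight (z.mg * x.r) 40 + (lenL x.g + 3) := rfl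
  rw [e1, e2, e3]
  have d1 := dot_mulL z x.g hε
  have d3 := Z.val_mul z x.c
  have c1 := Z.norm_le_mg z
  have key : z.val * u - ((z.mul x.c).val + dot (mulL z x.g) ε) =
      -((z.mul x.c).val - z.val * x.c.val) +
      (-(dot (mulL z x.g) ε - z.val * dot x.g ε) + z.val * ρ) := by
    rw [hu]
    ring
  have n1 : ‖z.val * ρ‖ ≤ ((z.mg : ℝ) / 2 ^ 40) * ((x.r : ℝ) / 2 ^ 40) := by
    rw [norm_mul]
    exact mul_le_mul c1 hρ (norm_nonneg _) (by positivity)
  have s1 := shr40 (z.mg * x.r)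
  set S : ℝ := ((Nat.shiftRight (z.mg * x.r) 40 : Nat) : ℝ) with hS
  have s2 : ((z.mg : ℝ) / 2 ^ 40) * ((x.r : ℝ) / 2 ^ 40) ≤ (S + 1) / 2 ^ 40 := by
    have h : ((z.mg : ℝ) / 2 ^ 40) * ((x.r : ℝ) / 2 ^ 40) =
        (((z.mg * x.r : ℕ) : ℝ) / 2 ^ 40) / 2 ^ 40 := by
      push_cast
      ring
    rw [h]
    exact div_le_div_of_nonneg_right s1 (by positivity)
  rw [key]
  have t1 : ‖-((z.mul x.c).val - z.val * x.c.val)‖ ≤ 2 / 2 ^ 40 := by rw [norm_neg]; exact d3
  have t2 : ‖-(dot (mulL z x.g) ε - z.val * dot x.g ε)‖ ≤ (lenL x.g : ℝ) / 2 ^ 40 := by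
    rw [norm_neg]; exact d1
  refine (norm_add_le _ _).trans ?_
  refine (add_le_add_right (norm_add_le _ _) _).trans ?_
  have fin : ((Nat.shiftRight (z.mg * x.r) 40 + (lenL x.g + 3) : Nat) : ℝ) / 2 ^ 40 =
      2 / 2 ^ 40 + ((lenL x.g : ℝ) / 2 ^ 40 + (S + 1) / 2 ^ 40) := by
    rw [hS]
    push_cast
    ring
  rw [fin]
  linarith

end Pool.Agent.helper31.IA
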