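import Mathlib

/-!
# IA: kernel affine arithmetic, definitions

Complex numbers in fixed point (scale `2^(-40)`) with sign split coordinates, affine models
`c + Σ g i * ε i + (error ≤ r)` for noise symbols `‖ε i‖ ≤ 1`, and straight line programs.
All functions use only natural number arithmetic, so that the kernel can evaluate them.
-/

namespace Pool.Agent.helper31.IA

/-- The complex number `((a - b) + (c - d) i) / 2^40`. -/
structure Z where
  a : Nat
  b : Nat
  c : Nat
  d : Nat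
deriving Repr, Inhabited

noncomputable def Z.val (x : Z) : ℂ :=
  ((((x.a : ℝ) - x.b) / 2 ^ 40 : ℝ) : ℂ) + ((((x.c : ℝ) - x.d) / 2 ^ 40 : ℝ) : ℂ) * Complex.I

def Z.zero : Z := ⟨0, 0, 0, 0⟩

def Z.one : Z := ⟨1099511627776, 0, 0, 0⟩

/-- sum, exact -/
def Z.add (x y : Z) : Z :=
  let p := Nat.add x.a y.a
  let q := Nat.add x.b y.b
  let s := Nat.add x.c y.c
  let t := Nat.add x.d y.d
  ⟨Nat.sub p q, Nat.sub q p, Nat.sub s t, Nat.sub t s⟩

def Z.neg (x : Z) : Z := ⟨x.b, x.a, x.d, x.c⟩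

/-- difference, exact -/
def Z.sub (x y : Z) : Z :=
  let p := Nat.add x.a y.b
  let q := Nat.add x.b y.a
  let s := Nat.add x.c y.d
  let t := Nat.add x.d y.c
  ⟨Nat.sub p q, Nat.sub q p, Nat.sub s t, Nat.sub t s⟩

/-- product, error at most `2` units -/
def Z.mul (x y : Z) : Z :=
  let p := Nat.add (Nat.add (Nat.mul x.a y.a) (Nat.mul x.b y.b))
    (Nat.add (Nat.mul x.c y.d) (Nat.mul x.d y.c))
  let q := Nat.add (Nat.add (Nat.mul x.a y.b) (Nat.mul x.b y.a))
    (Nat.add (Nat.mul x.c y.c) (Nat.mul x.d y.d))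
  let s := Nat.add (Nat.add (Nat.mul x.a y.c) (Nat.mul x.b y.d))
    (Nat.add (Nat.mul x.c y.a) (Nat.mul x.d y.b))
  let t := Nat.add (Nat.add (Nat.mul x.a y.d) (Nat.mul x.b y.c))
    (Nat.add (Nat.mul x.c y.b) (Nat.mul x.d y.a))
  ⟨Nat.shiftRight (Nat.sub p q) 40, Nat.shiftRight (Nat.sub q p) 40,
   Nat.shiftRight (Nat.sub s t) 40, Nat.shiftRight (Nat.sub t s) 40⟩

/-- upper bound of `2^40 * ‖x‖` -/
def Z.mg (x : Z) : Nat := Nat.add (Nat.add x.a x.b) (Nat.add x.c x.d)

/-- better upper bound of `2^40 * ‖x‖`: `max + 0.415 min` of the absolute values of the coordinates -/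
def Z.mag (x : Z) : Nat :=
  let p := Nat.add (Nat.sub x.a x.b) (Nat.sub x.b x.a)
  let q := Nat.add (Nat.sub x.c x.d) (Nat.sub x.d x.c)
  let u := Nat.sub q p
  Nat.add (Nat.add p u) (Nat.add (Nat.shiftRight (Nat.mul (Nat.sub q u) 425) 10) 1)

/-- division by a positive number, error at most `2` units -/
def Z.divn (x : Z) (n : Nat) : Z :=
  ⟨Nat.div x.a n, Nat.div x.b n, Nat.div x.c n, Nat.div x.d n⟩

/-- division by `2^k`, error at most `2` units -/
def Z.shr (x : Z) (k : Nat) : Z :=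
  ⟨Nat.shiftRight x.a k, Nat.shiftRight x.b k, Nat.shiftRight x.c k, Nat.shiftRight x.d k⟩

/-- `2^80 * ‖x‖^2`, exactly -/
def Z.nsq (x : Z) : Nat :=
  let p := Nat.add (Nat.sub x.a x.b) (Nat.sub x.b x.a)
  let q := Nat.add (Nat.sub x.c x.d) (Nat.sub x.d x.c)
  Nat.add (Nat.mul p p) (Nat.mul q q)

/-- `1/x`, error at most `2` units if `x ≠ 0` -/
def Z.inv (x : Z) : Z :=
  let n := x.nsq
  ⟨Nat.div (Nat.shiftLeft (Nat.sub x.a x.b) 80) n, Nat.div (Nat.shiftLeft (Nat.sub x.b x.a) 80) n,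
   Nat.div (Nat.shiftLeft (Nat.sub x.d x.c) 80) n, Nat.div (Nat.shiftLeft (Nat.sub x.c x.d) 80) n⟩

/-- `Σ_{j ≤ 11} (11!/j!) x^j` by Horner, `acc` starts with `1` -/
def hor (x : Z) : List Nat → Z → Z
  | [], acc => acc
  | k :: ks, acc => hor x ks ((x.mul acc).add ⟨Nat.shiftLeft k 40, 0, 0, 0⟩)

/-- `11!/j!` for `j = 10, ..., 0` -/
def horc : List Nat :=
  [11, 110, 990, 7920, 55440, 332640, 1663200, 6652800, 19958400, 39916800, 39916800]

/-- repeated squaring with error tracking -/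
def sqr : Nat → Z → Nat → Z × Nat
  | 0, z, e => (z, e)
  | k + 1, z, e =>
      sqr k (z.mul z)
        (Nat.add (Nat.shiftRight (Nat.mul (Nat.add (Nat.mul 2 (Nat.add z.mg e)) e) e) 40) 3)

/-- `exp x` and an error bound (in units) -/
def Z.exp (x : Z) : Z × Nat :=
  let k := Nat.sub (Nat.log2 x.mg) 38
  sqr k ((hor (x.shr k) horc Z.one).divn 39916800) 10

/-- first guess of `log x` (no claim) -/
def Z.log0 (x : Z) : Z :=
  let p := Nat.add (Nat.sub x.a x.b) (Nat.sub x.b x.a)
  let q := Nat.add (Nat.sub x.c x.d) (Nat.sub x.d x.c)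
  let mx := Nat.add p (Nat.sub q p)
  let mn := Nat.sub q (Nat.sub q p)
  -- `mx ≈ 2^l`
  let l := Nat.add (Nat.log2 mx) 1
  -- `n = (|x| / 2^l)^2` scaled by `2^20`
  let n := Nat.shiftRight (Nat.shiftLeft (Nat.add (Nat.mul mx mx) (Nat.mul mn mn)) 20) (Nat.mul 2 l)
  -- `log |x| ≈ (l - 40) log 2 + (n - 1)/(n + 1)`
  let f := Nat.shiftLeft 1 20
  let t := Nat.div (Nat.shiftLeft mn 20) (Nat.add mx 1)
  -- `atan t ≈ t (1 - .2146 t)`
  let at0 := Nat.sub t (Nat.shiftRight (Nat.mul (Nat.mul t t) 225) 30)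
  -- angle in the first quadrant
  let an := bif Nat.ble q p then at0 else Nat.sub 1647099 at0
  let an2 := bif Nat.ble x.b x.a then an else Nat.sub 3294199 an
  ⟨Nat.add (Nat.mul l 762123384786) (Nat.shiftLeft (Nat.div (Nat.shiftLeft (Nat.sub n f) 20) (Nat.add n f)) 20),
   Nat.add 30484935391440 (Nat.shiftLeft (Nat.div (Nat.shiftLeft (Nat.sub f n) 20) (Nat.add n f)) 20),
   bif Nat.ble x.d x.c then Nat.shiftLeft an2 20 else 0,
   bif Nat.ble x.d x.c then 0 else Nat.shiftLeft an2 20⟩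

/-- `x * exp (-l) - 1` with error bound -/
def logu (x l : Z) : Z × Nat :=
  let e := l.neg.exp
  ((x.mul e.1).sub Z.one, Nat.add (Nat.shiftRight (Nat.mul x.mg e.2) 40) 3)

/-- `u - u²/2 + u³/3` -/
def log3 (u : Z) : Z :=
  let u2 := u.mul u
  (u.sub (u2.divn 2)).add ((u2.mul u).divn 3)

/-- `log x`, error bound, validity -/
def Z.log (x : Z) : Z × Nat × Bool :=
  let l0 := x.log0
  let u0 := (logu x l0).1
  let l1 := (l0.add (log3 u0)).sub (((u0.mul u0).mul (u0.mul u0)).divn 4)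
  let u1 := logu x l1
  let m := Nat.add u1.1.mg u1.2
  let l2 := l1.add (log3 u1.1)
  let e := Nat.add (Nat.add (Nat.mul 2 u1.2) (Nat.shiftRight (Nat.mul (Nat.mul m m) (Nat.mul m m)) 120)) 10
  (l2, e, Nat.ble m 274877906944)

/-- affine model -/
structure A where
  c : Z
  g : List Z
  r : Nat
  ok : Bool
deriving Repr, Inhabited

/-- `Σ g i * ε i` -/
noncomputable def dot : List Z → List ℂ → ℂ
  | [], _ => 0
  | _ :: _, [] => 0
  | g :: gs, e :: es => g.val * e + dot gs es

/-- membership for one choice of the noise symbols -/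
def Mem (ε : List ℂ) (x : A) (z : ℂ) : Prop :=
  x.ok = true → ‖z - (x.c.val + dot x.g ε)‖ ≤ (x.r : ℝ) / 2 ^ 40

def addL : List Z → List Z → List Z
  | [], l => l
  | l, [] => l
  | x :: xs, y :: ys => x.add y :: addL xs ys

def mulL (z : Z) : List Z → List Z
  | [] => []
  | x :: xs => z.mul x :: mulL z xs

def negL : List Z → List Z
  | [] => []
  | x :: xs => x.neg :: negL xs

def mgL : List Z → Nat
  | [] => 0
  | x :: xs => Nat.add x.mg (mgL xs)

def magL : List Z → Nat
  | [] => 0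
  | x :: xs => Nat.add x.mag (magL xs)

def lenL : List Z → Nat
  | [] => 0
  | _ :: xs => Nat.add (lenL xs) 2

def A.const (z : Z) : A := ⟨z, [], 0, true⟩

def A.add (x y : A) : A := ⟨x.c.add y.c, addL x.g y.g, Nat.add x.r y.r, x.ok && y.ok⟩

def A.neg (x : A) : A := ⟨x.c.neg, negL x.g, x.r, x.ok⟩

def A.sub (x y : A) : A := ⟨x.c.sub y.c, addL x.g (negL y.g), Nat.add x.r y.r, x.ok && y.ok⟩

def A.mul (x y : A) : A :=
  let d1 := Nat.add (magL x.g) x.r
  let d2 := Nat.add (magL y.g) y.r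
  ⟨x.c.mul y.c, addL (mulL y.c x.g) (mulL x.c y.g),
   Nat.add (Nat.shiftRight
       (Nat.add (Nat.add (Nat.mul x.c.mg y.r) (Nat.mul y.c.mg x.r)) (Nat.mul d1 d2)) 40)
     (Nat.add (Nat.add (lenL x.g) (lenL y.g)) 3),
   x.ok && y.ok⟩

def A.scale (z : Z) (x : A) : A :=
  ⟨z.mul x.c, mulL z x.g,
   Nat.add (Nat.shiftRight (Nat.mul z.mg x.r) 40) (Nat.add (lenL x.g) 3), x.ok⟩

def A.inv (x : A) : A :=
  let u := x.c.inv
  let U := Nat.add u.mag 2
  let G := magL x.g
  let D := Nat.add G x.r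
  -- bound of `|δ/c|`
  let h := Nat.add (Nat.shiftRight (Nat.mul U D) 40) 1
  let u2 := u.mul u
  let e2 := Nat.add (Nat.shiftRight (Nat.mul 4 U) 40) 3
  ⟨u, negL (mulL u2 x.g),
   Nat.add
     (Nat.add (Nat.add (Nat.shiftRight (Nat.mul e2 G) 40) (lenL x.g))
       (Nat.shiftRight (Nat.mul (Nat.mul U U) x.r) 80))
     (Nat.add (Nat.div (Nat.mul U (Nat.mul h h)) (Nat.shiftLeft (Nat.sub 1099511627776 h) 40)) 6),
   x.ok && Nat.ble 1 x.c.nsq && Nat.ble h 549755813888⟩

def A.exp (x : A) : A :=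
  let E := x.c.exp
  let G := magL x.g
  let D := Nat.add G x.r
  let M := Nat.add E.1.mag E.2
  -- bound of `|exp δ - 1 - δ|`: `D²/2 + D³/4`
  let q := Nat.add (Nat.shiftRight (Nat.mul (Nat.mul D D)
    (Nat.add 2199023255552 D)) 82) 1
  ⟨E.1, mulL E.1 x.g,
   Nat.add
     (Nat.add (Nat.add E.2 (Nat.shiftRight (Nat.mul E.2 G) 40)) (lenL x.g))
     (Nat.add (Nat.shiftRight (Nat.mul M (Nat.add x.r q)) 40) 3),
   x.ok && Nat.ble D 1099511627776⟩

def A.log (x : A) : A :=
  let l := x.c.log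
  let u := x.c.inv
  let U := Nat.add u.mag 2
  let G := magL x.g
  let D := Nat.add G x.r
  let h := Nat.add (Nat.shiftRight (Nat.mul U D) 40) 1
  let im := Nat.add (Nat.sub l.1.c l.1.d) (Nat.sub l.1.d l.1.c)
  -- bound of `|log (1 + v) - v|`: `h²/2 + 2h³/3`
  let q := Nat.add (Nat.div (Nat.mul (Nat.mul h h)
    (Nat.add 3298534883328 (Nat.mul 4 h))) 7253554917687775048237056) 1
  ⟨l.1, mulL u x.g,
   Nat.add
     (Nat.add (Nat.add l.2.1 (Nat.shiftRight (Nat.mul 2 G) 40)) (lenL x.g))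
     (Nat.add (Nat.shiftRight (Nat.mul U x.r) 40) (Nat.add q 3)),
   x.ok && l.2.2 && Nat.ble 1 x.c.nsq && Nat.ble h 549755813888 &&
     Nat.ble (Nat.add im (Nat.add l.2.1 (Nat.mul 2 h))) 3452466511216⟩

/-- instructions; arguments are indices into the memory, `0` is the newest value -/
inductive Op where
  | const (z : Z)
  | add (i j : Nat)
  | sub (i j : Nat)
  | mul (i j : Nat)
  | scale (z : Z) (i : Nat)
  | neg (i : Nat)
  | inv (i : Nat)
  | exp (i : Nat)
  | log (i : Nat)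
  | pos (i : Nat)
  | lt (i : Nat) (B : Nat)
deriving Repr, Inhabited

def nth : List A → Nat → A
  | [], _ => ⟨Z.zero, [], 0, false⟩
  | x :: _, 0 => x
  | _ :: t, n + 1 => nth t n

/-- validity; forces the evaluation of all fields -/
def A.chk (x : A) : Bool :=
  x.ok && Nat.ble (Nat.add (Nat.add (mgL x.g) x.r) x.c.mg) 1208925819614629174706176

def reL : Nat → List Z → Nat
  | _, [] => 0
  | 0, x :: xs => Nat.add x.mag (reL 0 xs)
  | n + 1, x :: xs => Nat.add (Nat.add (Nat.sub x.a x.b) (Nat.sub x.b x.a)) (reL n xs)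

/-- `0 < Re`; the first `nr` noise symbols are real -/
def A.isPos (nr : Nat) (x : A) : Bool :=
  x.ok && Nat.ble (Nat.add (Nat.add x.c.b (reL nr x.g)) (Nat.add x.r 1)) x.c.a

/-- `‖ ‖ < B / 2^40` -/
def A.isLt (x : A) (B : Nat) : Bool :=
  let D := Nat.add (magL x.g) x.r
  x.ok && Nat.ble (Nat.add D 1) B &&
    Nat.ble (Nat.add x.c.nsq 1) (Nat.mul (Nat.sub B D) (Nat.sub B D))

/-- run a program; `nr` is the number of real noise symbols -/
def run (nr : Nat) : List Op → List A → Bool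
  | [], _ => true
  | Op.const z :: t, m => run nr t (A.const z :: m)
  | Op.add i j :: t, m => let v := (nth m i).add (nth m j); v.chk && run nr t (v :: m)
  | Op.sub i j :: t, m => let v := (nth m i).sub (nth m j); v.chk && run nr t (v :: m)
  | Op.mul i j :: t, m => let v := (nth m i).mul (nth m j); v.chk && run nr t (v :: m)
  | Op.scale z i :: t, m => let v := (nth m i).scale z; v.chk && run nr t (v :: m)
  | Op.neg i :: t, m => let v := (nth m i).neg; v.chk && run nr t (v :: m)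
  | Op.inv i :: t, m => let v := (nth m i).inv; v.chk && run nr t (v :: m)
  | Op.exp i :: t, m => let v := (nth m i).exp; v.chk && run nr t (v :: m)
  | Op.log i :: t, m => let v := (nth m i).log; v.chk && run nr t (v :: m)
  | Op.pos i :: t, m => (nth m i).isPos nr && run nr t m
  | Op.lt i B :: t, m => (nth m i).isLt B && run nr t m

/-- the list `[0, ..., 0, h]` with `j` zeros -/
def unitL : Nat → Nat → List Z
  | 0, h => [⟨h, 0, 0, 0⟩]
  | j + 1, h => Z.zero :: unitL j h

/-- models of complex unit discs, `j` is the number of the first one -/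
def discs : Nat → Nat → List A
  | 0, _ => []
  | nd + 1, j => ⟨Z.zero, unitL j 1099511627776, 0, true⟩ :: discs nd (j + 1)

/-- models of the real variables: `box` is a list of (centre, half width) in units; `j` is the
number of the first one; then `nd` complex unit discs -/
def models : List (Nat × Nat) → Nat → Nat → List A
  | [], j, nd => discs nd j
  | (c, h) :: b, j, nd => ⟨⟨c, 0, 0, 0⟩, unitL j h, 0, true⟩ :: models b (j + 1) nd

/-- subdivision tree -/
inductive T where
  | l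
  | n (i : Nat) (a b : T)
deriving Repr, Inhabited

/-- lower half in coordinate `i` -/
def lo : Nat → List (Nat × Nat) → List (Nat × Nat)
  | _, [] => []
  | 0, (c, h) :: b => let k := Nat.div h 2; (Nat.sub c k, k) :: b
  | i + 1, x :: b => x :: lo i b

/-- upper half in coordinate `i` -/
def hi : Nat → List (Nat × Nat) → List (Nat × Nat)
  | _, [] => []
  | 0, (c, h) :: b => let k := Nat.div h 2; (Nat.add c k, k) :: b
  | i + 1, x :: b => x :: hi i b

/-- coordinate `i` can be halved -/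
def canSplit : Nat → List (Nat × Nat) → Bool
  | _, [] => false
  | 0, (c, h) :: _ => Nat.beq (Nat.mul 2 (Nat.div h 2)) h && Nat.ble h c
  | i + 1, _ :: b => canSplit i b

/-- verification of a program on a box along a subdivision tree -/
def verify (nd : Nat) (ops : List Op) : T → List (Nat × Nat) → Bool
  | T.l, box => run box.length ops (models box 0 nd)
  | T.n i a b, box => canSplit i box && verify nd ops a (lo i box) && verify nd ops b (hi i box)

end Pool.Agent.helper31.IA
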