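import Pool.Agent.helper31.IA.ZSound

/-!
# IA-2: the exponential of fixed point numbers
-/

namespace Pool.Agent.helper31.IA

open Complex

/-- exact Horner recursion -/
private noncomputable def horP (x : ℂ) : List Nat → ℂ → ℂ
  | [], p => p
  | k :: ks, p => horP x ks (x * p + (k : ℂ))

private theorem val_kone (k : ℕ) : (Z.mk (Nat.shiftLeft k 40) 0 0 0).val = (k : ℂ) := by
  have hs : Nat.shiftLeft k 40 = k * 2 ^ 40 := Nat.shiftLeft_eq k 40
  apply Complex.ext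
  · rw [Z.re_val, Complex.natCast_re]
    simp only [hs]
    push_cast
    field_simp
    ring
  · rw [Z.im_val, Complex.natCast_im]
    simp

private theorem hor_err (x : Z) (hx : ‖x.val‖ ≤ 51 / 100) : ∀ (ks : List Nat) (acc : Z) (p : ℂ),
    ‖acc.val - p‖ ≤ 5 / 2 ^ 40 → ‖(hor x ks acc).val - horP x.val ks p‖ ≤ 5 / 2 ^ 40 := by
  intro ks
  induction ks with
  | nil => intro acc p h; simpa [hor, horP] using h
  | cons k ks ih =>
    intro acc p h
    rw [hor, horP]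
    apply ih
    rw [Z.val_add, val_kone]
    have e : (x.mul acc).val + (k : ℂ) - (x.val * p + (k : ℂ))
        = ((x.mul acc).val - x.val * acc.val) + x.val * (acc.val - p) := by ring
    rw [e]
    refine (norm_add_le _ _).trans ?_
    rw [norm_mul]
    have h1 := Z.val_mul x acc
    have h2 : ‖x.val‖ * ‖acc.val - p‖ ≤ 51 / 100 * (5 / 2 ^ 40) :=
      mul_le_mul hx h (norm_nonneg _) (by norm_num)
    have h3 : (2 : ℝ) / 2 ^ 40 + 51 / 100 * (5 / 2 ^ 40) ≤ 5 / 2 ^ 40 := by norm_num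
    linarith

private theorem horP_eq (x : ℂ) :
    horP x horc 1 =
      ∑ j ∈ Finset.range 12, ((39916800 / (Nat.factorial j : ℝ) : ℝ) : ℂ) * x ^ j := by
  simp only [horP, horc, Finset.sum_range_succ, Finset.sum_range_zero, Nat.factorial]
  push_cast
  ring

/-- Horner: `p` is the polynomial with coefficients `horc` (and leading coefficient `1`), for
`‖x‖ ≤ 51/100` the result is `Σ_{j ≤ 11} (11!/j!) x^j` up to `5` units: each step multiplies the
error by `‖x‖` and adds at most `2` units. -/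
theorem hor_sound (x : Z) (hx : ‖x.val‖ ≤ 51 / 100) :
    ‖(hor x horc Z.one).val -
      ∑ j ∈ Finset.range 12, ((39916800 / (Nat.factorial j : ℝ) : ℝ) : ℂ) * x.val ^ j‖ ≤
        5 / 2 ^ 40 := by
  rw [← horP_eq]
  apply hor_err x hx
  rw [Z.val_one, sub_self, norm_zero]
  positivity

/-- For `‖x‖ ≤ 1/2 + 2^(-38)`: Taylor remainder `‖x‖^12/12! * (13/12)` is less than one unit
(`Complex.exp_bound`), division by `11!` costs `2` units. -/
theorem exp_core (x : Z) (hx : ‖x.val‖ ≤ 1 / 2 + 4 / 2 ^ 40) :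
    ‖((hor x horc Z.one).divn 39916800).val - Complex.exp x.val‖ ≤ 4 / 2 ^ 40 := by
  have hx1 : ‖x.val‖ ≤ 51 / 100 := hx.trans (by norm_num)
  set h := hor x horc Z.one with hh
  set S : ℂ := ∑ j ∈ Finset.range 12, ((39916800 / (Nat.factorial j : ℝ) : ℝ) : ℂ) * x.val ^ j
    with hS
  have h1 : ‖h.val - S‖ ≤ 5 / 2 ^ 40 := hor_sound x hx1
  have h2 := Z.val_divn h (n := 39916800) (by norm_num)
  have h3 : ‖Complex.exp x.val - ∑ m ∈ Finset.range 12, x.val ^ m / (Nat.factorial m : ℂ)‖ ≤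
      ‖x.val‖ ^ 12 * ((Nat.succ 12 : ℝ) * ((Nat.factorial 12 : ℝ) * (12 : ℕ))⁻¹) := by
    exact_mod_cast Complex.exp_bound (x := x.val) (hx1.trans (by norm_num)) (n := 12) (by norm_num)
  have hS2 : S / (39916800 : ℕ) = ∑ m ∈ Finset.range 12, x.val ^ m / (Nat.factorial m : ℂ) := by
    rw [hS, Finset.sum_div]
    apply Finset.sum_congr rfl
    intro j _
    have hj : (Nat.factorial j : ℂ) ≠ 0 := by exact_mod_cast Nat.factorial_ne_zero j
    push_cast
    field_simp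
  rw [← hS2] at h3
  have h4 : ‖x.val‖ ^ 12 * ((Nat.succ 12 : ℝ) * ((Nat.factorial 12 : ℝ) * (12 : ℕ))⁻¹)
      ≤ 1 / 2 ^ 40 := by
    have h5 : ‖x.val‖ ^ 12 ≤ (51 / 100 : ℝ) ^ 12 := pow_le_pow_left₀ (norm_nonneg _) hx1 12
    have h6 : (0 : ℝ) ≤ (Nat.succ 12 : ℝ) * ((Nat.factorial 12 : ℝ) * (12 : ℕ))⁻¹ := by positivity
    refine (mul_le_mul_of_nonneg_right h5 h6).trans ?_
    norm_num [Nat.factorial]
  have e : (h.divn 39916800).val - Complex.exp x.val
      = ((h.divn 39916800).val - h.val / (39916800 : ℕ)) + (h.val - S) / (39916800 : ℕ)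
        - (Complex.exp x.val - S / (39916800 : ℕ)) := by ring
  rw [e]
  refine (norm_sub_le _ _).trans ?_
  have h7 : ‖(h.val - S) / ((39916800 : ℕ) : ℂ)‖ ≤ 5 / 2 ^ 40 / 39916800 := by
    rw [norm_div, Complex.norm_natCast]
    push_cast
    exact div_le_div_of_nonneg_right h1 (by norm_num)
  have h8 := norm_add_le ((h.divn 39916800).val - h.val / (39916800 : ℕ))
    ((h.val - S) / ((39916800 : ℕ) : ℂ))
  have h9 : (2 : ℝ) / 2 ^ 40 + 5 / 2 ^ 40 / 39916800 + 1 / 2 ^ 40 ≤ 4 / 2 ^ 40 := by norm_num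
  linarith

private theorem shr_le (P : ℕ) : (P : ℝ) / 2 ^ 40 ≤ ((Nat.shiftRight P 40 : ℕ) : ℝ) + 1 := by
  have h0 : Nat.shiftRight P 40 = P / 2 ^ 40 := Nat.shiftRight_eq_div_pow P 40
  rw [h0]
  have h1 : 2 ^ 40 * (P / 2 ^ 40) + P % 2 ^ 40 = P := Nat.div_add_mod P (2 ^ 40)
  have h2 : P % 2 ^ 40 < 2 ^ 40 := Nat.mod_lt P (by norm_num)
  have h3 : P ≤ 2 ^ 40 * (P / 2 ^ 40 + 1) := by
    rw [Nat.mul_add]
    omega
  have h4 : (P : ℝ) ≤ 2 ^ 40 * (((P / 2 ^ 40 : ℕ) : ℝ) + 1) := by exact_mod_cast h3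
  rw [div_le_iff₀ (by positivity)]
  linarith

/-- repeated squaring: `|z² - exp(2w)| ≤ |z - exp w| (2|z| + |z - exp w|)` -/
theorem sqr_sound (k : Nat) : ∀ (z : Z) (e : Nat) (w : ℂ),
    ‖z.val - Complex.exp w‖ ≤ (e : ℝ) / 2 ^ 40 →
    ‖(sqr k z e).1.val - Complex.exp (2 ^ k * w)‖ ≤ ((sqr k z e).2 : ℝ) / 2 ^ 40 := by
  induction k with
  | zero => intro z e w h; simpa [sqr] using h
  | succ k ih =>
    intro z e w h
    rw [sqr]
    have e2 : (2 : ℂ) ^ (k + 1) * w = 2 ^ k * (2 * w) := by ring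
    rw [e2]
    apply ih
    have hexp : Complex.exp (2 * w) = Complex.exp w * Complex.exp w := by
      rw [← Complex.exp_add]
      ring_nf
    rw [hexp]
    set E := Complex.exp w with hE
    set d := z.val - E with hd
    have e3 : (z.mul z).val - E * E = ((z.mul z).val - z.val * z.val) + d * (2 * z.val - d) := by
      rw [hd]
      ring
    rw [e3]
    have h1 := Z.val_mul z z
    have h2 := Z.norm_le_mg z
    have h3 : ‖2 * z.val - d‖ ≤ 2 * ((z.mg : ℝ) / 2 ^ 40) + (e : ℝ) / 2 ^ 40 := by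
      refine (norm_sub_le _ _).trans ?_
      rw [norm_mul]
      have : ‖(2 : ℂ)‖ = 2 := by simp
      rw [this]
      linarith
    have h4 : ‖d * (2 * z.val - d)‖ ≤
        (e : ℝ) / 2 ^ 40 * (2 * ((z.mg : ℝ) / 2 ^ 40) + (e : ℝ) / 2 ^ 40) := by
      rw [norm_mul]
      exact mul_le_mul h h3 (norm_nonneg _) (by positivity)
    have hP : (((Nat.mul (Nat.add (Nat.mul 2 (Nat.add z.mg e)) e) e : ℕ)) : ℝ)
        = (2 * ((z.mg : ℝ) + e) + e) * e := by
      simp only [Nat.add_eq, Nat.mul_eq]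
      push_cast
      ring
    have h5 := shr_le (Nat.mul (Nat.add (Nat.mul 2 (Nat.add z.mg e)) e) e)
    rw [hP] at h5
    have h6 : ((Nat.add (Nat.shiftRight (Nat.mul (Nat.add (Nat.mul 2 (Nat.add z.mg e)) e) e) 40) 3
        : ℕ) : ℝ) = ((Nat.shiftRight (Nat.mul (Nat.add (Nat.mul 2 (Nat.add z.mg e)) e) e) 40
        : ℕ) : ℝ) + 3 := by
      rw [Nat.add_eq]
      push_cast
      ring
    rw [h6]
    have he0 : (0 : ℝ) ≤ e := Nat.cast_nonneg _
    have h7 : (e : ℝ) / 2 ^ 40 * (2 * ((z.mg : ℝ) / 2 ^ 40) + (e : ℝ) / 2 ^ 40)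
        ≤ (2 * ((z.mg : ℝ) + e) + e) * e / 2 ^ 40 / 2 ^ 40 := by
      have e4 : (e : ℝ) / 2 ^ 40 * (2 * ((z.mg : ℝ) / 2 ^ 40) + (e : ℝ) / 2 ^ 40)
        = (2 * (z.mg : ℝ) + e) * e / 2 ^ 40 / 2 ^ 40 := by ring
      rw [e4]
      apply div_le_div_of_nonneg_right _ (by positivity)
      apply div_le_div_of_nonneg_right _ (by positivity)
      nlinarith
    have h8 : (2 * ((z.mg : ℝ) + e) + e) * e / 2 ^ 40 / 2 ^ 40
        ≤ (((Nat.shiftRight (Nat.mul (Nat.add (Nat.mul 2 (Nat.add z.mg e)) e) e) 40 : ℕ) : ℝ) + 1)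
          / 2 ^ 40 := div_le_div_of_nonneg_right h5 (by positivity)
    refine (norm_add_le _ _).trans ?_
    have h9 : (((Nat.shiftRight (Nat.mul (Nat.add (Nat.mul 2 (Nat.add z.mg e)) e) e) 40 : ℕ) : ℝ)
        + 3) / 2 ^ 40 = 2 / 2 ^ 40 +
        (((Nat.shiftRight (Nat.mul (Nat.add (Nat.mul 2 (Nat.add z.mg e)) e) e) 40 : ℕ) : ℝ) + 1)
          / 2 ^ 40 := by ring
    rw [h9]
    linarith

private theorem exp_close (y w : ℂ) (hw : ‖w‖ ≤ 1 / 2) (hd : ‖y - w‖ ≤ 2 / 2 ^ 40) :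
    ‖Complex.exp y - Complex.exp w‖ ≤ 4 / 2 ^ 40 := by
  have e : Complex.exp y - Complex.exp w
      = Complex.exp w * ((Complex.exp (y - w) - 1 - (y - w)) + (y - w)) := by
    rw [Complex.exp_sub]
    have : Complex.exp w ≠ 0 := Complex.exp_ne_zero w
    field_simp
    ring
  rw [e, norm_mul]
  have h1 : ‖Complex.exp w‖ ≤ 165 / 100 := by
    rw [Complex.norm_exp]
    have h2 : w.re ≤ 1 / 2 := (Complex.re_le_norm w).trans hw
    refine (Real.exp_le_exp.2 h2).trans ?_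
    have h3 : Real.exp (1 / 2) * Real.exp (1 / 2) = Real.exp 1 := by
      rw [← Real.exp_add]
      norm_num
    have h4 := Real.exp_one_lt_d9
    have h5 : 0 < Real.exp (1 / 2) := Real.exp_pos _
    nlinarith
  have hd1 : ‖y - w‖ ≤ 1 := hd.trans (by norm_num)
  have h6 := Complex.norm_exp_sub_one_sub_id_le hd1
  have h7 : ‖y - w‖ ^ 2 ≤ (2 / 2 ^ 40 : ℝ) ^ 2 := pow_le_pow_left₀ (norm_nonneg _) hd 2
  have h8 : ‖(Complex.exp (y - w) - 1 - (y - w)) + (y - w)‖ ≤ (2 / 2 ^ 40 : ℝ) ^ 2 + 2 / 2 ^ 40 := by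
    refine (norm_add_le _ _).trans ?_
    linarith
  refine (mul_le_mul h1 h8 (norm_nonneg _) (by norm_num)).trans ?_
  norm_num

/-- With `k = log2 (mg x) - 38`: `mg x < 2^(k+39)`, so `‖x.val‖/2^k ≤ 1/2`, `‖(x.shr k).val‖ ≤
1/2 + 2/2^40` and `|exp((x.shr k).val) - exp(x.val/2^k)| ≤ 4` units; together at most `10` units;
then `sqr_sound`. -/
theorem Z.exp_sound (x : Z) :
    ‖x.exp.1.val - Complex.exp x.val‖ ≤ (x.exp.2 : ℝ) / 2 ^ 40 := by
  set k := Nat.sub (Nat.log2 x.mg) 38 with hk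
  have hE : x.exp = sqr k ((hor (x.shr k) horc Z.one).divn 39916800) 10 := rfl
  rw [hE]
  have hlt : x.mg < 2 ^ (k + 39) := by
    have h1 : x.mg < 2 ^ (Nat.log2 x.mg + 1) := Nat.lt_log2_self
    refine lt_of_lt_of_le h1 (Nat.pow_le_pow_right (by norm_num) ?_)
    have h2 : k = Nat.log2 x.mg - 38 := hk
    omega
  have hw : ‖x.val / 2 ^ k‖ ≤ 1 / 2 := by
    rw [norm_div, norm_pow]
    have h2 : ‖(2 : ℂ)‖ = 2 := by simp
    rw [h2, div_le_iff₀ (by positivity)]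
    have h3 := Z.norm_le_mg x
    have h4 : (x.mg : ℝ) ≤ 2 ^ (k + 39) := by exact_mod_cast hlt.le
    have h5 : (x.mg : ℝ) / 2 ^ 40 ≤ 2 ^ (k + 39) / 2 ^ 40 :=
      div_le_div_of_nonneg_right h4 (by positivity)
    have h6 : (2 : ℝ) ^ (k + 39) / 2 ^ 40 = 1 / 2 * 2 ^ k := by
      rw [pow_add]
      field_simp
    linarith
  have hd := Z.val_shr x k
  have hy : ‖(x.shr k).val‖ ≤ 1 / 2 + 4 / 2 ^ 40 := by
    have e : (x.shr k).val = ((x.shr k).val - x.val / 2 ^ k) + x.val / 2 ^ k := by ring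
    rw [e]
    refine (norm_add_le _ _).trans ?_
    have : (2 : ℝ) / 2 ^ 40 ≤ 4 / 2 ^ 40 := by norm_num
    linarith
  have h1 := exp_core (x.shr k) hy
  have h2 := exp_close (x.shr k).val (x.val / 2 ^ k) hw hd
  have h3 : ‖((hor (x.shr k) horc Z.one).divn 39916800).val - Complex.exp (x.val / 2 ^ k)‖
      ≤ ((10 : ℕ) : ℝ) / 2 ^ 40 := by
    have e : ((hor (x.shr k) horc Z.one).divn 39916800).val - Complex.exp (x.val / 2 ^ k)
        = (((hor (x.shr k) horc Z.one).divn 39916800).val - Complex.exp (x.shr k).val)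
          + (Complex.exp (x.shr k).val - Complex.exp (x.val / 2 ^ k)) := by ring
    rw [e]
    refine (norm_add_le _ _).trans ?_
    have : (4 : ℝ) / 2 ^ 40 + 4 / 2 ^ 40 ≤ ((10 : ℕ) : ℝ) / 2 ^ 40 := by norm_num
    linarith
  have h4 := sqr_sound k _ 10 _ h3
  have e5 : (2 : ℂ) ^ k * (x.val / 2 ^ k) = x.val := by
    field_simp
  rw [e5] at h4
  exact h4

end Pool.Agent.helper31.IA
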