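import Pool.Agent.helper31.IA.Defs

/-!
# IA-1: the fixed point numbers; proofs: helper41
-/

namespace Pool.Agent.helper31.IA

open Complex

private theorem reV (x : Z) : x.val.re = ((x.a : ℝ) - x.b) / 2 ^ 40 := by
  simp only [Z.val, Complex.add_re, Complex.mul_re, Complex.ofReal_re, Complex.ofReal_im,
    Complex.I_re, Complex.I_im]
  ring

private theorem imV (x : Z) : x.val.im = ((x.c : ℝ) - x.d) / 2 ^ 40 := by
  simp only [Z.val, Complex.add_im, Complex.mul_im, Complex.ofReal_re, Complex.ofReal_im,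
    Complex.I_re, Complex.I_im]
  ring

private theorem subsub (p q : ℕ) :
    ((Nat.sub p q : ℕ) : ℝ) - ((Nat.sub q p : ℕ) : ℝ) = (p : ℝ) - q := by
  rcases le_total p q with h | h
  · have h1 : Nat.sub p q = 0 := Nat.sub_eq_zero_of_le h
    have h2 : ((Nat.sub q p : ℕ) : ℝ) = (q : ℝ) - p := Nat.cast_sub h
    rw [h1, h2]
    simp
  · have h1 : Nat.sub q p = 0 := Nat.sub_eq_zero_of_le h
    have h2 : ((Nat.sub p q : ℕ) : ℝ) = (p : ℝ) - q := Nat.cast_sub h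
    rw [h1, h2]
    simp

private theorem absadd (p q : ℕ) :
    ((Nat.add (Nat.sub p q) (Nat.sub q p) : ℕ) : ℝ) = |(p : ℝ) - q| := by
  have hadd : ((Nat.add (Nat.sub p q) (Nat.sub q p) : ℕ) : ℝ)
      = ((Nat.sub p q : ℕ) : ℝ) + ((Nat.sub q p : ℕ) : ℝ) := Nat.cast_add _ _
  rcases le_total p q with h | h
  · have h1 : Nat.sub p q = 0 := Nat.sub_eq_zero_of_le h
    have h2 : ((Nat.sub q p : ℕ) : ℝ) = (q : ℝ) - p := Nat.cast_sub h
    have h3 : (p : ℝ) ≤ q := by exact_mod_cast h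
    rw [hadd, h1, h2, abs_of_nonpos (by linarith)]
    simp
  · have h1 : Nat.sub q p = 0 := Nat.sub_eq_zero_of_le h
    have h2 : ((Nat.sub p q : ℕ) : ℝ) = (p : ℝ) - q := Nat.cast_sub h
    have h3 : (q : ℝ) ≤ p := by exact_mod_cast h
    rw [hadd, h1, h2, abs_of_nonneg (by linarith)]
    simp

private theorem trunc (P n : ℕ) (hn : 0 < n) :
    ((P / n : ℕ) : ℝ) ≤ (P : ℝ) / n ∧ (P : ℝ) / n ≤ ((P / n : ℕ) : ℝ) + 1 := by
  have hn' : (0 : ℝ) < n := by exact_mod_cast hn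
  have h1 : (n : ℝ) * ((P / n : ℕ) : ℝ) + ((P % n : ℕ) : ℝ) = P := by
    exact_mod_cast Nat.div_add_mod P n
  have h2 : ((P % n : ℕ) : ℝ) ≤ n := by exact_mod_cast (Nat.mod_lt P hn).le
  have h3 : (0 : ℝ) ≤ ((P % n : ℕ) : ℝ) := Nat.cast_nonneg _
  constructor
  · rw [le_div_iff₀ hn']
    linarith
  · rw [div_le_iff₀ hn']
    linarith

private theorem trunc2 (P Q n : ℕ) (hn : 0 < n) :
    |(((P / n : ℕ) : ℝ) - ((Q / n : ℕ) : ℝ)) - ((P : ℝ) - Q) / n| ≤ 1 := by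
  obtain ⟨h1, h2⟩ := trunc P n hn
  obtain ⟨h3, h4⟩ := trunc Q n hn
  rw [sub_div, abs_le]
  constructor <;> linarith

private theorem nle (z : ℂ) (h1 : |z.re| ≤ 1 / 2 ^ 40) (h2 : |z.im| ≤ 1 / 2 ^ 40) :
    ‖z‖ ≤ 2 / 2 ^ 40 := by
  have h := Complex.norm_le_abs_re_add_abs_im z
  have h3 : (2 : ℝ) / 2 ^ 40 = 1 / 2 ^ 40 + 1 / 2 ^ 40 := by ring
  linarith

private theorem unit_abs {s t : ℝ} (h : |s - t| ≤ 1) :
    |s / 2 ^ 40 - t / 2 ^ 40| ≤ 1 / 2 ^ 40 := by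
  rw [← sub_div, abs_div, abs_of_pos (by positivity : (0 : ℝ) < 2 ^ 40)]
  exact div_le_div_of_nonneg_right h (by positivity)

theorem Z.val_zero : Z.zero.val = 0 := by
  apply Complex.ext
  · rw [reV]
    simp [Z.zero]
  · rw [imV]
    simp [Z.zero]

theorem Z.val_one : Z.one.val = 1 := by
  apply Complex.ext
  · rw [reV]
    norm_num [Z.one]
  · rw [imV]
    simp [Z.one]

theorem Z.val_neg (x : Z) : x.neg.val = -x.val := by
  apply Complex.ext
  · rw [Complex.neg_re, reV, reV]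
    simp only [Z.neg]
    ring
  · rw [Complex.neg_im, imV, imV]
    simp only [Z.neg]
    ring

/-- exact: `(p ∸ q) - (q ∸ p) = p - q` -/
theorem Z.val_add (x y : Z) : (x.add y).val = x.val + y.val := by
  apply Complex.ext
  · rw [Complex.add_re, reV, reV, reV]
    simp only [Z.add]
    rw [subsub]
    have h1 : ((Nat.add x.a y.a : ℕ) : ℝ) = x.a + y.a := Nat.cast_add _ _
    have h2 : ((Nat.add x.b y.b : ℕ) : ℝ) = x.b + y.b := Nat.cast_add _ _
    rw [h1, h2]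
    ring
  · rw [Complex.add_im, imV, imV, imV]
    simp only [Z.add]
    rw [subsub]
    have h1 : ((Nat.add x.c y.c : ℕ) : ℝ) = x.c + y.c := Nat.cast_add _ _
    have h2 : ((Nat.add x.d y.d : ℕ) : ℝ) = x.d + y.d := Nat.cast_add _ _
    rw [h1, h2]
    ring

theorem Z.val_sub (x y : Z) : (x.sub y).val = x.val - y.val := by
  apply Complex.ext
  · rw [Complex.sub_re, reV, reV, reV]
    simp only [Z.sub]
    rw [subsub]
    have h1 : ((Nat.add x.a y.b : ℕ) : ℝ) = x.a + y.b := Nat.cast_add _ _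
    have h2 : ((Nat.add x.b y.a : ℕ) : ℝ) = x.b + y.a := Nat.cast_add _ _
    rw [h1, h2]
    ring
  · rw [Complex.sub_im, imV, imV, imV]
    simp only [Z.sub]
    rw [subsub]
    have h1 : ((Nat.add x.c y.d : ℕ) : ℝ) = x.c + y.d := Nat.cast_add _ _
    have h2 : ((Nat.add x.d y.c : ℕ) : ℝ) = x.d + y.c := Nat.cast_add _ _
    rw [h1, h2]
    ring

/-- With `p, q, s, t` of the definition, `x.val * y.val = ((p - q) + (s - t) i)/2^80`, and each
coordinate of the result is the exact one truncated towards `0` to a multiple of `2^(-40)`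
(error `< 2^(-40)`). -/
theorem Z.val_mul (x y : Z) : ‖(x.mul y).val - x.val * y.val‖ ≤ 2 / 2 ^ 40 := by
  have hsh : ∀ P : ℕ, Nat.shiftRight P 40 = P / 2 ^ 40 := fun P => Nat.shiftRight_eq_div_pow P 40
  have hN : (0 : ℕ) < 2 ^ 40 := by norm_num
  have hc : (((2 ^ 40 : ℕ) : ℕ) : ℝ) = 2 ^ 40 := by norm_num
  apply nle
  · rw [Complex.sub_re, Complex.mul_re, reV, reV, reV, imV, imV]
    simp only [Z.mul, hsh]
    set p := Nat.add (Nat.add (Nat.mul x.a y.a) (Nat.mul x.b y.b))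
      (Nat.add (Nat.mul x.c y.d) (Nat.mul x.d y.c)) with hp
    set q := Nat.add (Nat.add (Nat.mul x.a y.b) (Nat.mul x.b y.a))
      (Nat.add (Nat.mul x.c y.c) (Nat.mul x.d y.d)) with hq
    have hp' : (p : ℝ) = x.a * y.a + x.b * y.b + (x.c * y.d + x.d * y.c) := by
      rw [hp]
      simp only [Nat.add_eq, Nat.mul_eq]
      push_cast
      ring
    have hq' : (q : ℝ) = x.a * y.b + x.b * y.a + (x.c * y.c + x.d * y.d) := by
      rw [hq]
      simp only [Nat.add_eq, Nat.mul_eq]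
      push_cast
      ring
    have h := unit_abs (trunc2 (Nat.sub p q) (Nat.sub q p) (2 ^ 40) hN)
    rw [subsub, hc, hp', hq'] at h
    have e : ((x.a * y.a + x.b * y.b + (x.c * y.d + x.d * y.c) : ℝ)
        - (x.a * y.b + x.b * y.a + (x.c * y.c + x.d * y.d))) / 2 ^ 40 / 2 ^ 40
        = ((x.a : ℝ) - x.b) / 2 ^ 40 * (((y.a : ℝ) - y.b) / 2 ^ 40)
          - ((x.c : ℝ) - x.d) / 2 ^ 40 * (((y.c : ℝ) - y.d) / 2 ^ 40) := by
      ring
    rw [e] at h
    exact h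
  · rw [Complex.sub_im, Complex.mul_im, reV, reV, imV, imV, imV]
    simp only [Z.mul, hsh]
    set p := Nat.add (Nat.add (Nat.mul x.a y.c) (Nat.mul x.b y.d))
      (Nat.add (Nat.mul x.c y.a) (Nat.mul x.d y.b)) with hp
    set q := Nat.add (Nat.add (Nat.mul x.a y.d) (Nat.mul x.b y.c))
      (Nat.add (Nat.mul x.c y.b) (Nat.mul x.d y.a)) with hq
    have hp' : (p : ℝ) = x.a * y.c + x.b * y.d + (x.c * y.a + x.d * y.b) := by
      rw [hp]
      simp only [Nat.add_eq, Nat.mul_eq]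
      push_cast
      ring
    have hq' : (q : ℝ) = x.a * y.d + x.b * y.c + (x.c * y.b + x.d * y.a) := by
      rw [hq]
      simp only [Nat.add_eq, Nat.mul_eq]
      push_cast
      ring
    have h := unit_abs (trunc2 (Nat.sub p q) (Nat.sub q p) (2 ^ 40) hN)
    rw [subsub, hc, hp', hq'] at h
    have e : ((x.a * y.c + x.b * y.d + (x.c * y.a + x.d * y.b) : ℝ)
        - (x.a * y.d + x.b * y.c + (x.c * y.b + x.d * y.a))) / 2 ^ 40 / 2 ^ 40
        = ((x.a : ℝ) - x.b) / 2 ^ 40 * (((y.c : ℝ) - y.d) / 2 ^ 40)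
          + ((x.c : ℝ) - x.d) / 2 ^ 40 * (((y.a : ℝ) - y.b) / 2 ^ 40) := by
      ring
    rw [e] at h
    exact h

theorem Z.norm_le_mg (x : Z) : ‖x.val‖ ≤ (x.mg : ℝ) / 2 ^ 40 := by
  have h := Complex.norm_le_abs_re_add_abs_im x.val
  rw [reV, imV, abs_div, abs_div, abs_of_pos (by positivity : (0 : ℝ) < 2 ^ 40)] at h
  have hm : (x.mg : ℝ) = (x.a + x.b) + (x.c + x.d) := by
    simp only [Z.mg, Nat.add_eq]
    push_cast
    ring
  have h1 : |(x.a : ℝ) - x.b| ≤ x.a + x.b := by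
    have ha : (0 : ℝ) ≤ x.a := Nat.cast_nonneg _
    have hb : (0 : ℝ) ≤ x.b := Nat.cast_nonneg _
    rw [abs_le]
    constructor <;> linarith
  have h2 : |(x.c : ℝ) - x.d| ≤ x.c + x.d := by
    have ha : (0 : ℝ) ≤ x.c := Nat.cast_nonneg _
    have hb : (0 : ℝ) ≤ x.d := Nat.cast_nonneg _
    rw [abs_le]
    constructor <;> linarith
  refine h.trans ?_
  rw [hm, ← add_div]
  exact div_le_div_of_nonneg_right (by linarith) (by positivity)

/-- `√(M² + m²) ≤ M + λ m` for `0 ≤ m ≤ M`, `λ = 425/1024`, since `λ² + 2λ ≥ 1`; `p + u = M`,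
`q - u = m`, and the shift loses less than `1`. -/
theorem Z.norm_le_mag (x : Z) : ‖x.val‖ ≤ (x.mag : ℝ) / 2 ^ 40 := by
  have hsq : ‖x.val‖ ^ 2 = (|(x.a : ℝ) - x.b| ^ 2 + |(x.c : ℝ) - x.d| ^ 2) / 2 ^ 80 := by
    rw [← Complex.normSq_eq_norm_sq, Complex.normSq_apply, reV, imV, sq_abs, sq_abs]
    ring
  set p := Nat.add (Nat.sub x.a x.b) (Nat.sub x.b x.a) with hp
  set q := Nat.add (Nat.sub x.c x.d) (Nat.sub x.d x.c) with hq
  have hp' : (p : ℝ) = |(x.a : ℝ) - x.b| := absadd _ _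
  have hq' : (q : ℝ) = |(x.c : ℝ) - x.d| := absadd _ _
  rw [← hp', ← hq'] at hsq
  set k : ℕ := Nat.sub q (Nat.sub q p) * 425 / 1024 with hk
  have hmag : (x.mag : ℝ) = (p : ℝ) + ((Nat.sub q p : ℕ) : ℝ) + ((k : ℝ) + 1) := by
    have e : x.mag = (p + Nat.sub q p) + (k + 1) := by
      simp only [Z.mag, Nat.add_eq, Nat.mul_eq]
      rw [hk, hp, hq]
      have : ∀ P : ℕ, Nat.shiftRight P 10 = P / 1024 := fun P => Nat.shiftRight_eq_div_pow P 10
      rw [this]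
      rfl
    rw [e]
    push_cast
    ring
  have htr := (trunc (Nat.sub q (Nat.sub q p) * 425) 1024 (by norm_num)).2
  rw [← hk] at htr
  push_cast at htr
  -- `M` and `m`
  have hM : ∃ M m : ℝ, 0 ≤ m ∧ m ≤ M ∧ (p : ℝ) + ((Nat.sub q p : ℕ) : ℝ) = M ∧
      ((Nat.sub q (Nat.sub q p) : ℕ) : ℝ) = m ∧ (p : ℝ) ^ 2 + (q : ℝ) ^ 2 = M ^ 2 + m ^ 2 := by
    rcases le_total p q with h | h
    · refine ⟨q, p, Nat.cast_nonneg _, by exact_mod_cast h, ?_, ?_, by ring⟩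
      · have : ((Nat.sub q p : ℕ) : ℝ) = (q : ℝ) - p := Nat.cast_sub h
        rw [this]
        ring
      · have : Nat.sub q (Nat.sub q p) = p := Nat.sub_sub_self h
        rw [this]
    · have h0 : Nat.sub q p = 0 := Nat.sub_eq_zero_of_le h
      refine ⟨p, q, Nat.cast_nonneg _, by exact_mod_cast h, ?_, ?_, by ring⟩
      · rw [h0]
        simp
      · rw [h0]
        rfl
  obtain ⟨M, m, hm0, hmM, hMe, hme, hsum⟩ := hM
  rw [hme] at htr
  rw [hmag, hMe]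
  rw [hsum] at hsq
  have hk1 : 425 / 1024 * m ≤ (k : ℝ) + 1 := by linarith
  have hfin : M ^ 2 + m ^ 2 ≤ (M + ((k : ℝ) + 1)) ^ 2 := by
    have h1 : M + 425 / 1024 * m ≤ M + ((k : ℝ) + 1) := by linarith
    have h2 : (M + 425 / 1024 * m) ^ 2 ≤ (M + ((k : ℝ) + 1)) ^ 2 :=
      pow_le_pow_left₀ (by linarith) h1 2
    nlinarith [mul_le_mul_of_nonneg_right hmM hm0]
  have hpos : (0 : ℝ) ≤ (M + ((k : ℝ) + 1)) / 2 ^ 40 := by
    have : (0 : ℝ) ≤ k := Nat.cast_nonneg _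
    exact div_nonneg (by linarith) (by positivity)
  refine le_of_sq_le_sq ?_ hpos
  rw [hsq, div_pow]
  have e : ((2 : ℝ) ^ 40) ^ 2 = 2 ^ 80 := by norm_num
  rw [e]
  exact div_le_div_of_nonneg_right hfin (by positivity)

/-- each coordinate: `|(a - b)/n - (⌊a/n⌋ - ⌊b/n⌋)| < 1` -/
theorem Z.val_divn (x : Z) {n : Nat} (hn : 0 < n) :
    ‖(x.divn n).val - x.val / n‖ ≤ 2 / 2 ^ 40 := by
  have hdre : (x.val / (n : ℂ)).re = x.val.re / n := by
    have : ((n : ℂ)) = ((n : ℝ) : ℂ) := by simp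
    rw [this, Complex.div_ofReal_re]
  have hdim : (x.val / (n : ℂ)).im = x.val.im / n := by
    have : ((n : ℂ)) = ((n : ℝ) : ℂ) := by simp
    rw [this, Complex.div_ofReal_im]
  apply nle
  · rw [Complex.sub_re, hdre, reV, reV]
    have h := unit_abs (trunc2 x.a x.b n hn)
    rw [div_right_comm] at h
    exact h
  · rw [Complex.sub_im, hdim, imV, imV]
    have h := unit_abs (trunc2 x.c x.d n hn)
    rw [div_right_comm] at h
    exact h

theorem Z.val_shr (x : Z) (k : Nat) : ‖(x.shr k).val - x.val / 2 ^ k‖ ≤ 2 / 2 ^ 40 := by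
  have e : x.shr k = x.divn (2 ^ k) := by
    simp only [Z.shr, Z.divn]
    have : ∀ P : ℕ, Nat.shiftRight P k = Nat.div P (2 ^ k) := fun P => Nat.shiftRight_eq_div_pow P k
    rw [this, this, this, this]
  have h := Z.val_divn x (n := 2 ^ k) (by positivity)
  rw [e]
  push_cast at h
  exact h

theorem Z.nsq_eq (x : Z) : (x.nsq : ℝ) = ‖x.val‖ ^ 2 * 2 ^ 80 := by
  have hsq : ‖x.val‖ ^ 2 = (|(x.a : ℝ) - x.b| ^ 2 + |(x.c : ℝ) - x.d| ^ 2) / 2 ^ 80 := by
    rw [← Complex.normSq_eq_norm_sq, Complex.normSq_apply, reV, imV, sq_abs, sq_abs]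
    ring
  rw [hsq, div_mul_cancel₀ _ (by positivity)]
  simp only [Z.nsq]
  rw [← absadd, ← absadd]
  simp only [Nat.add_eq, Nat.mul_eq]
  push_cast
  ring

/-- real part: `Re x.val = (a - b)/2^40` -/
theorem Z.re_val (x : Z) : x.val.re = ((x.a : ℝ) - x.b) / 2 ^ 40 := by
  exact reV x

theorem Z.im_val (x : Z) : x.val.im = ((x.c : ℝ) - x.d) / 2 ^ 40 := by
  exact imV x

/-- `1/x = conj x/|x|²`, each coordinate is truncated. -/
theorem Z.val_inv (x : Z) (h : 1 ≤ x.nsq) : ‖x.inv.val - (x.val)⁻¹‖ ≤ 2 / 2 ^ 40 := by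
  have hn : 0 < x.nsq := h
  have hn' : (0 : ℝ) < x.nsq := by exact_mod_cast hn
  have hns : Complex.normSq x.val = (x.nsq : ℝ) / 2 ^ 80 := by
    rw [Z.nsq_eq, Complex.normSq_eq_norm_sq]
    field_simp
  have hsh : ∀ P : ℕ, Nat.shiftLeft P 80 = P * 2 ^ 80 := fun P => Nat.shiftLeft_eq P 80
  apply nle
  · rw [Complex.sub_re, Complex.inv_re, hns, reV, reV]
    simp only [Z.inv, hsh]
    have h := unit_abs (trunc2 (Nat.sub x.a x.b * 2 ^ 80) (Nat.sub x.b x.a * 2 ^ 80) x.nsq hn)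
    have e : ((Nat.sub x.a x.b * 2 ^ 80 : ℕ) : ℝ) - ((Nat.sub x.b x.a * 2 ^ 80 : ℕ) : ℝ)
        = ((x.a : ℝ) - x.b) * 2 ^ 80 := by
      rw [Nat.cast_mul, Nat.cast_mul, ← sub_mul, subsub]
      norm_num
    rw [e] at h
    have e2 : ((x.a : ℝ) - x.b) * 2 ^ 80 / x.nsq / 2 ^ 40
        = ((x.a : ℝ) - x.b) / 2 ^ 40 / (x.nsq / 2 ^ 80) := by
      field_simp
    rw [e2] at h
    exact h
  · rw [Complex.sub_im, Complex.inv_im, hns, imV, imV]
    simp only [Z.inv, hsh]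
    have h := unit_abs (trunc2 (Nat.sub x.d x.c * 2 ^ 80) (Nat.sub x.c x.d * 2 ^ 80) x.nsq hn)
    have e : ((Nat.sub x.d x.c * 2 ^ 80 : ℕ) : ℝ) - ((Nat.sub x.c x.d * 2 ^ 80 : ℕ) : ℝ)
        = ((x.d : ℝ) - x.c) * 2 ^ 80 := by
      rw [Nat.cast_mul, Nat.cast_mul, ← sub_mul, subsub]
      norm_num
    rw [e] at h
    have e2 : ((x.d : ℝ) - x.c) * 2 ^ 80 / x.nsq / 2 ^ 40
        = -(((x.c : ℝ) - x.d) / 2 ^ 40) / (x.nsq / 2 ^ 80) := by
      field_simp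
      ring
    rw [e2] at h
    exact h

end Pool.Agent.helper31.IA
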